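import Pool.Agent.L0h32.LT.Count
import Pool.Agent.L0h32.LT2.Stm

/-!
# The hierarchy of bounded nondeterminism in linear time and sublinear space: statements of the parts
-/

set_option autoImplicit false

namespace Pool.Agent.L0h58.HN

open Finset Pool.Agent.L0h32.LT Pool.Agent.L0h32.LT2

/-! ### Concentration -/

/-- **MGF.** The exponential moments of a function with bounded differences. -/
def S_MGF : Prop :=
  ∀ (r : ℕ) (α : Type) [Fintype α] [Nonempty α] (f : (Fin r → α) → ℝ) (c : ℝ), 0 ≤ c →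
    (∀ x i a, |f (Function.update x i a) - f x| ≤ c) → ∀ l : ℝ,
      ∑ x, Real.exp (l * (f x - (∑ y, f y) / (Fintype.card α : ℝ) ^ r)) ≤
        (Fintype.card α : ℝ) ^ r * Real.exp (l ^ 2 * r * c ^ 2 / 2)

/-- The number of the variables with the multiplicity `j`. -/
def mu {n r : ℕ} (t : Fin n → Finset (Fin r)) (j : ℕ) : ℕ :=
  (univ.filter fun i => (t i).card = j).card

/-- The multiplicity `j`, the number of labels `Q` and the sampling rate `1 / Θ` suit the pattern. -/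
def Ana {n r : ℕ} (D E Q Θ j : ℕ) (t : Fin n → Finset (Fin r)) : Prop :=
  (∑ i ∈ univ.filter (fun i => (t i).card ≠ j), (2 / (Q : ℝ)) ^ (t i).card ≤
      (mu t j : ℝ) * (1 / (Q : ℝ)) ^ j / E) ∧
  (Θ : ℝ) * n ≤ (mu t j : ℝ) * (1 / (Q : ℝ)) ^ j * D ∧
  (mu t j : ℝ) * (1 / (Q : ℝ)) ^ j * D ≤ 4 * Θ * n

open Classical in
/-- **CON.** All but an exponentially small fraction of the labellings are good. -/
def S_CON : Prop :=
  ∀ (k D E Q Θ n r ℓ j : ℕ), 1 ≤ k → 1 ≤ D → 1 ≤ E → 4 ≤ Q → 1 ≤ Θ → 1 ≤ n → 1 ≤ ℓ →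
    r * ℓ ≤ k * n → ∀ t : Fin n → Finset (Fin r),
      (∀ s, (univ.filter fun i => s ∈ t i).card ≤ ℓ) → Ana D E Q Θ j t →
        ((univ.filter fun Fh : (Fin r → Fin Q) × (Fin n → Fin Θ) =>
            ¬ Good D E j t Fh.1 Fh.2).card : ℝ) *
          Real.exp ((n : ℝ) / (16 * k * E ^ 2 * D ^ 2 * ℓ)) ≤ 3 * (Q : ℝ) ^ r * (Θ : ℝ) ^ n

/-- The number of the sampled variables with the multiplicity `i`. -/
def cnt {n r σ : ℕ} (t : Fin n → Finset (Fin r)) (S : Fin σ → Fin n) (i : ℕ) : ℕ :=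
  (univ.filter fun a => (t (S a)).card = i).card

/-- The numbers `w i` of a sample of size `σ` are accurate up to `2 ^ (-e)`. -/
def Acc {n r : ℕ} (J e σ : ℕ) (w : ℕ → ℕ) (t : Fin n → Finset (Fin r)) : Prop :=
  ∀ i ∈ Icc 1 J, (2 : ℝ) ^ e * |(w i : ℝ) * n - σ * mu t i| ≤ σ * n

open Classical in
/-- **SMP.** Most samples are accurate. -/
def S_SMP : Prop :=
  ∀ (J e n σ r : ℕ) (t : Fin n → Finset (Fin r)), 1 ≤ n →
    ((univ.filter fun S : Fin σ → Fin n => ¬ Acc J e σ (cnt t S) t).card : ℝ) *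
      Real.exp ((σ : ℝ) / (2 * 4 ^ e)) ≤ 2 * J * (n : ℝ) ^ σ

/-! ### Selection -/

/-- The exponent of `D`. -/
def dx (J y : ℕ) : ℕ := 2 * lam J y * J ^ 2 + 2 * J + 4

/-- The exponent of the accuracy. -/
def ee (J y : ℕ) : ℕ := 2 * lam J y * J ^ 2 + lam J y + 2 * J + 6

/-- **SELX.** The parameters can be chosen from the numbers of an accurate sample. -/
def S_SELX : Prop :=
  ∀ (k y n σ : ℕ), 1 ≤ k → 1 ≤ n → 1 ≤ σ → ∀ w : ℕ → ℕ, ∃ u j θ : ℕ,
    1 ≤ u ∧ u ≤ 4 * k ∧ 1 ≤ j ∧ j ≤ 2 * k ∧ θ ≤ dx (2 * k) y ∧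
      ∀ (r : ℕ) (t : Fin n → Finset (Fin r)), (∀ i, (t i).Nonempty) →
        (∑ i, (t i).card ≤ k * n) → Acc (2 * k) (ee (2 * k) y) σ w t →
          Ana (2 ^ dx (2 * k) y) (2 ^ y) (2 ^ (lam (2 * k) y * u)) (2 ^ θ) j t

/-- The labels `F` and the set `Z` are good for the reading pattern `t`. -/
def Fair {n r : ℕ} (D E j : ℕ) (t : Fin n → Finset (Fin r)) (F : Fin r → ℕ)
    (Z : Finset (Fin n)) : Prop :=
  n ≤ 2 * D * (Z.filter fun i => ∀ s ∈ t i, F s = 0).card ∧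
  n ≤ 2 * D * (Z.filter fun i => ∀ s ∈ t i, F s = 1).card ∧
  E * D * (Z.filter fun i => (t i).card ≠ j ∧ ∀ s ∈ t i, F s = 0 ∨ F s = 1).card ≤ 16 * n

open Classical in
/-- **LAB.** The labelling can be chosen from the reading patterns of few variables. -/
def S_LAB : Prop :=
  ∀ (k y n r ℓ σ : ℕ) (X : Type) [Fintype X] (t : X → Fin n → Finset (Fin r)),
    1 ≤ k → 1 ≤ n → 1 ≤ σ → 1 ≤ ℓ → r * ℓ ≤ k * n → (∀ x i, (t x i).Nonempty) →
    (∀ x s, (univ.filter fun i => s ∈ t x i).card ≤ ℓ) →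
    ∃ (S : Fin σ → Fin n) (j : (Fin σ → Finset (Fin r)) → ℕ)
      (F : (Fin σ → Finset (Fin r)) → Fin r → ℕ) (Z : (Fin σ → Finset (Fin r)) → Finset (Fin n)),
      ((univ.filter fun x => ¬ Fair (2 ^ dx (2 * k) y) (2 ^ y) (j fun a => t x (S a)) (t x)
          (F fun a => t x (S a)) (Z fun a => t x (S a))).card : ℝ) ≤
        (4 * k * Real.exp (-((σ : ℝ) / (2 * 4 ^ ee (2 * k) y))) +
          3 * Real.exp (-((n : ℝ) / (16 * k * (2 ^ y) ^ 2 * (2 ^ dx (2 * k) y) ^ 2 * ℓ)))) *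
            Fintype.card X

/-! ### Polynomials -/

/-- The values of the polynomials with the coefficients `c` at the points `τ`. -/
def ev {K N : ℕ} {F : Type} [Field F] (τ : Fin N → F) (c : Fin K → (Fin 6 → F)) :
    Fin N → (Fin 6 → F) :=
  fun t i => ∑ d : Fin K, τ t ^ (d : ℕ) * c d i

open Classical in
/-- Any `K` of the values of `a` are spread up to `s` bits. -/
def SpreadK {N : ℕ} {F X : Type} [Fintype F] [Fintype X] (K s : ℕ)
    (a : X → Fin N → (Fin 6 → F)) : Prop :=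
  ∀ (I : Finset (Fin N)) (z : Fin N → (Fin 6 → F)), I.card ≤ K →
    (univ.filter fun x => ∀ j ∈ I, a x j = z j).card * Fintype.card F ^ (6 * I.card) ≤
      2 ^ s * Fintype.card X

/-- **VDM.** Interpolation. -/
def S_VDM : Prop :=
  ∀ (K N s : ℕ) (F X : Type) [Field F] [Fintype F] [Fintype X] (τ : Fin N → F)
    (a : X → Fin K → (Fin 6 → F)), Function.Injective τ → Spread s a →
      SpreadK K s fun x => ev τ (a x)

/-! ### Dense rectangles -/

open Classical in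
/-- Any two of the values of `a` on `S` are dense outside of `I`. -/
def Dense2 {N : ℕ} {F X : Type} [Fintype F] (S : Finset X) (a : X → Fin N → (Fin 6 → F))
    (I : Finset (Fin N)) : Prop :=
  ∀ (J : Finset (Fin N)) (z : Fin N → (Fin 6 → F)), J.card ≤ 2 → Disjoint J I →
    (S.filter fun x => ∀ j ∈ J, a x j = z j).card * Fintype.card F ^ (5 * J.card) ≤ S.card

/-- **DEN2.** Dense rectangles contain almost the right number of zeros of the forms. -/
def S_DEN2 : Prop :=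
  ∀ (N : ℕ) (F X Y : Type) [Field F] [Fintype F] [CharP F 2] (S : Finset X) (T : Finset Y)
    (a : X → Fin N → (Fin 6 → F)) (b : Y → Fin N → (Fin 6 → F)) (I I' : Finset (Fin N)),
    4 ≤ N → N ^ 2 ≤ Fintype.card F → Dense2 S a I → Dense2 T b I' →
      N * (S.card * T.card) ≤
        Fintype.card F * (hits S T a b).card + (I.card + I'.card + 1) * (S.card * T.card)

/-- **COR2.** All thick rectangles. -/
def S_COR2 : Prop :=
  ∀ (N K ρ s Δ : ℕ) (F X Y : Type) [Field F] [Fintype F] [CharP F 2] [Fintype X] [Fintype Y]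
    (a : X → Fin N → (Fin 6 → F)) (b : Y → Fin N → (Fin 6 → F)),
    4 ≤ N → N ^ 2 ≤ Fintype.card F → Fintype.card F = 2 ^ ρ → s + Δ + 2 * ρ ≤ ρ * K →
    SpreadK K s a → SpreadK K s b → ∀ (S : Finset X) (T : Finset Y),
      2 ^ Δ * (N * (S.card * T.card)) ≤
        2 ^ Δ * (Fintype.card F * (hits S T a b).card +
          (2 * ((s + Δ) / ρ) + 1) * (S.card * T.card)) +
        N * (Fintype.card X * T.card + S.card * Fintype.card Y)

/-- **ZER2.** Uniform inputs. -/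
def S_ZER2 : Prop :=
  ∀ (N K s : ℕ) (F X Y : Type) [Field F] [Fintype F] [CharP F 2] [Fintype X] [Fintype Y]
    (a : X → Fin N → (Fin 6 → F)) (b : Y → Fin N → (Fin 6 → F)),
    1 ≤ K → SpreadK K s a → SpreadK K s b →
      Fintype.card F ^ 3 * (hits univ univ a b).card ≤
        N * (Fintype.card X * Fintype.card Y) * (Fintype.card F ^ 2 + 2 ^ s)

open Classical in
/-- **RCT.** Thick classes of inputs that are closed under mixing. -/
def S_RCT : Prop :=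
  ∀ (n K N ρ s Δ : ℕ) (F : Type) [Field F] [Fintype F] [Algebra (ZMod 2) F]
    (e : (Fin ρ → ZMod 2) ≃ₗ[ZMod 2] F) (M : Fin n → (Fin K × Fin 6 × Fin ρ → ZMod 2))
    (τ : Fin N → F), Function.Injective τ → 4 ≤ N → N ^ 2 ≤ Fintype.card F →
    Fintype.card F = 2 ^ ρ → s + 2 * Δ + 2 * ρ ≤ ρ * K → 2 * N ≤ 2 ^ Δ →
    ∀ A B : Finset (Fin n), Disjoint A B →
      K * (6 * ρ) ≤ Module.finrank (ZMod 2) (Submodule.span (ZMod 2) (M '' A)) + s →
      K * (6 * ρ) ≤ Module.finrank (ZMod 2) (Submodule.span (ZMod 2) (M '' B)) + s →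
      ∀ C : Finset (Inp n), (∀ x ∈ C, ∀ y ∈ C, ∀ i, i ∉ A → i ∉ B → x i = y i) →
        (∀ x ∈ C, ∀ y ∈ C, mix B x y ∈ C) →
        2 ^ A.card < (C.image (rst A)).card * 2 ^ Δ →
        2 ^ B.card < (C.image (rst B)).card * 2 ^ Δ →
        N * C.card ≤
          Fintype.card F * (C.filter fun x => ∃ t, qf (ev τ (blk M e x) t) = 0).card +
            (2 * ((s + 2 * Δ) / ρ) + 2) * C.card

open Classical in
/-- **UNI.** The number of the ones of the function. -/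
def S_UNI : Prop :=
  ∀ (n K N ρ s : ℕ) (F : Type) [Field F] [Fintype F] [Algebra (ZMod 2) F]
    (e : (Fin ρ → ZMod 2) ≃ₗ[ZMod 2] F) (M : Fin n → (Fin K × Fin 6 × Fin ρ → ZMod 2))
    (τ : Fin N → F), Function.Injective τ → Fintype.card F = 2 ^ ρ → 1 ≤ K →
    ∀ A B : Finset (Fin n), Disjoint A B → A ∪ B = univ →
      K * (6 * ρ) ≤ Module.finrank (ZMod 2) (Submodule.span (ZMod 2) (M '' A)) + s →
      K * (6 * ρ) ≤ Module.finrank (ZMod 2) (Submodule.span (ZMod 2) (M '' B)) + s →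
        Fintype.card F ^ 3 * (univ.filter fun x : Inp n =>
            ∃ t, qf (ev τ (blk M e x) t) = 0).card ≤
          N * 2 ^ n * (Fintype.card F ^ 2 + 2 ^ s)

/-! ### The nondeterministic program -/

/-- **NON2.** A one-pass nondeterministic program with `g` guesses. -/
def S_NON2 : Prop :=
  ∀ (n K N g ρ : ℕ) (F : Type) [Field F] [Fintype F]
    (e : (Fin ρ → ZMod 2) → F) (M : Fin n → (Fin K × Fin 6 × Fin ρ → ZMod 2)) (τ : Fin N → F),
    N = 2 ^ g → Fintype.card F = 2 ^ ρ →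
    ∃ (V : Type) (_ : Finite V) (start : (Fin g → Bool) → V) (next : Fin n → V → Bool → V)
      (acc : V → Prop), Nat.card V ≤ 2 ^ (g + 6 * ρ) ∧
        ∀ x : Inp n, (∃ t, qf (ev τ (blk M e x) t) = 0) ↔
          ∃ ω, acc ((List.finRange n).foldl (fun v i => next i v (x i)) (start ω))

/-! ### The deterministic core -/

/-- The exceptional part, as a fraction of the inputs. -/
noncomputable def exc (k y n r ℓ σ e Δ v : ℕ) : ℝ :=
  4 * k * Real.exp (-((σ : ℝ) / (2 * 4 ^ ee (2 * k) y))) +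
    3 * Real.exp (-((n : ℝ) / (16 * k * (2 ^ y) ^ 2 * (2 ^ dx (2 * k) y) ^ 2 * ℓ))) +
    2 * (v : ℝ) ^ (r + 1) * 2 ^ (r * σ) * (Idx n e).card / 2 ^ Δ

open Classical in
/-- **DET.** A machine cannot avoid the ones of the function. -/
def S_DET : Prop :=
  ∀ (k y n r ℓ σ K N ρ s Δ m e : ℕ) (F : Type) [Field F] [Fintype F] [Algebra (ZMod 2) F]
    (ι : (Fin ρ → ZMod 2) ≃ₗ[ZMod 2] F) (M : Fin n → (Fin K × Fin 6 × Fin ρ → ZMod 2))
    (τ : Fin N → F), Function.Injective τ → 4 ≤ N → N ^ 2 ≤ Fintype.card F →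
    Fintype.card F = 2 ^ ρ → s + 2 * (3 * Δ) + 2 * ρ ≤ ρ * K → 2 * N ≤ 2 ^ (3 * Δ) →
    1 ≤ k → 1 ≤ n → 1 ≤ σ → 1 ≤ ℓ → r * ℓ ≤ k * n →
    2 * 2 ^ dx (2 * k) y * m ≤ n → 16 * n < 2 ^ y * 2 ^ dx (2 * k) y * (e + 1) →
    (∀ A : Finset (Fin n), m ≤ A.card →
      K * (6 * ρ) ≤ Module.finrank (ZMod 2) (Submodule.span (ZMod 2) (M '' A)) + s) →
    ∀ (V : Type) [Finite V] (P : Mach n V) (v₀ : V),
      (∀ (β : ℕ → V) (x : Inp n) (i : Fin n), (tt P ℓ β r x i).Nonempty) →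
      ∀ W : Set V,
        (N : ℝ) * (univ.filter fun x : Inp n => bd P ℓ v₀ x r ∈ W).card ≤
          (Fintype.card F : ℝ) * (univ.filter fun x : Inp n => bd P ℓ v₀ x r ∈ W ∧
              ∃ t, qf (ev τ (blk M ι x) t) = 0).card +
            (2 * ((s + 2 * (3 * Δ)) / ρ : ℕ) + 2) * (univ.filter fun x : Inp n =>
              bd P ℓ v₀ x r ∈ W).card +
            N * (exc k y n r ℓ σ e (3 * Δ) (Nat.card V) * 2 ^ n)

/-! ### Parameters -/

/-- **PAR3.** -/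
def S_PAR3 : Prop :=
  ∀ J : ℕ, 2 ≤ J → ∃ y : ℕ, 2 ^ 17 * (dx J y + 15) ≤ 2 ^ y

end Pool.Agent.L0h58.HN
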