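import Pool.Agent.L0h58.HN.Thin

/-!
# The deterministic core
-/

set_option autoImplicit false

namespace Pool.Agent.L0h58.HN

open Finset Pool.Agent.L0h32.LT Pool.Agent.L0h32.LT2

theorem le_of_div {D m c n : ℕ} (hD : 0 < D) (hm : 2 * D * m ≤ n) (hc : n ≤ 2 * D * c) : m ≤ c :=
  Nat.le_of_mul_le_mul_left (hm.trans hc) (by omega)

theorem t_DET (hlab : S_LAB) (hrct : S_RCT) : S_DET := by
  classical
  intro k y n r ℓ σ K N ρ s Δ m e F _ _ _ ι M τ hτ hN4 hNq hq hrk1 h2N hk hn hσ hℓ hrl hm he hrk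
    V _ P v₀ hcov W
  obtain ⟨S, j, Fl, Z, hbad⟩ := hlab k y n r ℓ σ (Inp n) (fun x => tt P ℓ (bd P ℓ v₀ x) r x) hk hn
    hσ hℓ hrl (fun x i => hcov _ x i) (by
      intro x s
      have h1 : (univ.filter fun i => s ∈ tt P ℓ (bd P ℓ v₀ x) r x i) =
          seg P ℓ (bd P ℓ v₀ x) x s := by
        ext i
        simp [tt]
      rw [h1]
      exact card_rd_le _ _ _ _ _)
  obtain ⟨D, hD⟩ : ∃ D, D = 2 ^ dx (2 * k) y := ⟨_, rfl⟩
  obtain ⟨E, hE⟩ : ∃ E, E = 2 ^ y := ⟨_, rfl⟩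
  have hD0 : 0 < D := by rw [hD]; positivity
  rw [← hD] at hm
  rw [← hD, ← hE] at he
  obtain ⟨nf, hnf⟩ : ∃ nf : Finset (Inp n), nf = univ.filter fun x : Inp n =>
      ¬ Fair (2 ^ dx (2 * k) y) (2 ^ y) (j fun a => tt P ℓ (bd P ℓ v₀ x) r x (S a))
        (tt P ℓ (bd P ℓ v₀ x) r x) (Fl fun a => tt P ℓ (bd P ℓ v₀ x) r x (S a))
          (Z fun a => tt P ℓ (bd P ℓ v₀ x) r x (S a)) := ⟨_, rfl⟩
  rw [← hnf] at hbad
  obtain ⟨bad, hb⟩ : ∃ bad : Finset (Inp n), bad = nf ∪ (Thn P ℓ r v₀ S Fl Z j e Δ 0 ∪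
      Thn P ℓ r v₀ S Fl Z j e Δ 1) := ⟨_, rfl⟩
  have hmain := part (key P ℓ r v₀ S Fl Z) (univ.filter fun x : Inp n => bd P ℓ v₀ x r ∈ W) bad
    (fun x => ∃ t, qf (ev τ (blk M ι x) t) = 0) N (Fintype.card F)
    (2 * ((s + 2 * (3 * Δ)) / ρ) + 2) ?_ ?_
  · -- the final computation
    have h0 := thin P ℓ r v₀ S Fl Z j e Δ 0 1 (Or.inl ⟨rfl, rfl⟩)
    have h1 := thin P ℓ r v₀ S Fl Z j e Δ 1 0 (Or.inr ⟨rfl, rfl⟩)
    have hcb : bad.card ≤ nf.card + ((Thn P ℓ r v₀ S Fl Z j e Δ 0).card +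
        (Thn P ℓ r v₀ S Fl Z j e Δ 1).card) := by
      rw [hb]
      exact (card_union_le _ _).trans (Nat.add_le_add_left (card_union_le _ _) _)
    generalize (Thn P ℓ r v₀ S Fl Z j e Δ 0).card = a0 at h0 hcb
    generalize (Thn P ℓ r v₀ S Fl Z j e Δ 1).card = a1 at h1 hcb
    rw [filter_filter] at hmain
    have hmain' : (N : ℝ) * (univ.filter fun x : Inp n => bd P ℓ v₀ x r ∈ W).card ≤
        (Fintype.card F : ℝ) * (univ.filter fun x : Inp n => bd P ℓ v₀ x r ∈ W ∧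
          ∃ t, qf (ev τ (blk M ι x) t) = 0).card +
        (2 * ((s + 2 * (3 * Δ)) / ρ : ℕ) + 2) * (univ.filter fun x : Inp n =>
          bd P ℓ v₀ x r ∈ W).card + N * bad.card := by exact_mod_cast hmain
    refine hmain'.trans ?_
    refine add_le_add_right (mul_le_mul_of_nonneg_left ?_ (Nat.cast_nonneg _)) _
    have hcb' : (bad.card : ℝ) ≤ nf.card + (a0 + a1) := by exact_mod_cast hcb
    have hI : ((Fintype.card (Inp n) : ℕ) : ℝ) = 2 ^ n := by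
      rw [Fintype.card_fun, Fintype.card_bool, Fintype.card_fin]
      push_cast
      rfl
    rw [hI] at hbad
    have h0' : (a0 : ℝ) * 2 ^ (3 * Δ) ≤
        (Nat.card V : ℝ) ^ (r + 1) * 2 ^ (r * σ) * (((Idx n e).card : ℝ) * 2 ^ n) := by
      exact_mod_cast h0
    have h1' : (a1 : ℝ) * 2 ^ (3 * Δ) ≤
        (Nat.card V : ℝ) ^ (r + 1) * 2 ^ (r * σ) * (((Idx n e).card : ℝ) * 2 ^ n) := by
      exact_mod_cast h1
    have h2 : (a0 : ℝ) + a1 ≤ 2 * (Nat.card V : ℝ) ^ (r + 1) * 2 ^ (r * σ) *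
        (Idx n e).card / 2 ^ (3 * Δ) * 2 ^ n := by
      rw [div_mul_eq_mul_div, le_div_iff₀ (by positivity)]
      linarith
    unfold exc
    linarith
  · -- the acceptance depends on the class
    intro x x' hxx' hx
    have h1 := ((key_iff P ℓ r v₀ S Fl Z x x').1 hxx').1
    have h2 := congrFun h1 ⟨r, by omega⟩
    unfold stl at h2
    dsimp only at h2
    refine mem_filter.2 ⟨mem_univ _, ?_⟩
    rw [← h2]
    exact (mem_filter.1 hx).2
  · intro x _ hex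
    obtain ⟨z, hzx, hz⟩ := hex
    rw [← hzx]
    rw [hb, mem_union, mem_union, not_or, not_or] at hz
    obtain ⟨hz0, hz1, hz2⟩ := hz
    have hfair : Fair D E (j (rcd P ℓ r v₀ S z)) (tt P ℓ (bd P ℓ v₀ z) r z)
        (Fl (rcd P ℓ r v₀ S z)) (Z (rcd P ℓ r v₀ S z)) := by
      by_contra hcon
      apply hz0
      rw [hnf]
      refine mem_filter.2 ⟨mem_univ _, ?_⟩
      rw [← hD, ← hE]
      exact hcon
    obtain ⟨hf0, hf1, hf2⟩ := hfair
    have hA : m ≤ (La P ℓ r v₀ S Fl Z 0 z).card := le_of_div hD0 hm hf0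
    have hB : m ≤ (La P ℓ r v₀ S Fl Z 1 z).card := le_of_div hD0 hm hf1
    have hEx : (Exx P ℓ r v₀ S Fl Z j z).card ≤ e := by
      have h5 := hf2.trans_lt he
      have h6 := Nat.lt_of_mul_lt_mul_left h5
      exact Nat.lt_succ_iff.1 h6
    have hthin : ∀ a, z ∉ Thn P ℓ r v₀ S Fl Z j e Δ a → 2 ^ (La P ℓ r v₀ S Fl Z a z).card <
        ((univ.filter fun y => key P ℓ r v₀ S Fl Z y = key P ℓ r v₀ S Fl Z z).image
          (rst (La P ℓ r v₀ S Fl Z a z))).card * 2 ^ (3 * Δ) := by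
      intro a ha
      by_contra hcon
      apply ha
      unfold Thn
      exact mem_filter.2 ⟨mem_univ _, hEx, not_lt.1 hcon⟩
    have hdis : Disjoint (La P ℓ r v₀ S Fl Z 0 z) (La P ℓ r v₀ S Fl Z 1 z) := by
      rw [disjoint_left]
      intro i hi hi'
      obtain ⟨t, ht⟩ := hcov (bd P ℓ v₀ z) z i
      have e1 := (mem_filter.1 hi).2 t ht
      have e2 := (mem_filter.1 hi').2 t ht
      omega
    have hR := hrct n K N ρ s (3 * Δ) F ι M τ hτ hN4 hNq hq hrk1 h2N _ _ hdis (hrk _ hA) (hrk _ hB)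
      (univ.filter fun y => key P ℓ r v₀ S Fl Z y = key P ℓ r v₀ S Fl Z z) ?_ ?_
      (hthin 0 hz1) (hthin 1 hz2)
    · exact hR
    · intro u hu v hv i hi hi'
      have gu := (key_iff P ℓ r v₀ S Fl Z u z).1 (mem_filter.1 hu).2
      have gv := (key_iff P ℓ r v₀ S Fl Z v z).1 (mem_filter.1 hv).2
      rw [gu.2.2.2.2 i (by rw [gu.2.2.1]; exact hi) (by rw [gu.2.2.2.1]; exact hi'),
        gv.2.2.2.2 i (by rw [gv.2.2.1]; exact hi) (by rw [gv.2.2.2.1]; exact hi')]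
    · intro u hu v hv
      have gu := (key_iff P ℓ r v₀ S Fl Z u z).1 (mem_filter.1 hu).2
      have gv := (key_iff P ℓ r v₀ S Fl Z v z).1 (mem_filter.1 hv).2
      exact mem_filter.2 ⟨mem_univ _, (key_iff P ℓ r v₀ S Fl Z _ z).2 (cls_mix gu gv)⟩

end Pool.Agent.L0h58.HN
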