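import Pool.Agent.L0h58.HN.All
import Pool.Agent.L0h58.HN.Det
import Pool.Agent.L0h85.HN.MGF
import Pool.Agent.L0h85.HN.SMP
import Pool.Agent.L0h85.HN.VDM
import Pool.Agent.L0h85.HN.UNI
import Pool.Agent.L0h37.HN.DEN2
import Pool.Agent.L0h37.HN.LAB
import Pool.Agent.L0h37.HN.SEL
import Pool.Agent.L0h37.HN.SELX
import Pool.Agent.L0h37.HN.Conc
import Pool.Agent.L0h13.HN.Gue
import Pool.Agent.L0h13.HN.Sim
import Pool.Agent.L0h11.HN.Rct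
import Pool.Agent.L0h76.HN.Cor2
import Pool.Agent.L0h76.HN.Zer2
import Pool.Agent.L0h6.HN.PAR3
import Pool.Agent.L0h6.HN.NON2
import Pool.Agent.LLead.LT.Rnk
import Pool.Agent.LLead.LT.Cnt
import Pool.Agent.LLead.LT2.Fib

/-!
# All parts together
-/

set_option autoImplicit false

namespace Pool.Agent.L0h58.HN

open Finset Pool.Agent.L0h32.LT Pool.Agent.L0h32.LT2

/-- The family of functions. -/
theorem family :
    ∃ f : (n g : ℕ) → Inp n → Bool,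
      (∀ n g, 1 ≤ n → n ≤ 2 ^ g → NonP n g (2 ^ (14 * g)) (f n g)) ∧
      ∀ k : ℕ, ∃ W n₀ : ℕ, 1 ≤ W ∧ ∀ n ≥ n₀, ∀ g : ℕ, n ≤ 2 ^ g → W * g ≤ n →
        ∀ T ≤ k * n, ∀ h : ℕ, 1 ≤ h → W * h ^ 2 ≤ n →
          Blind n T (2 ^ ((n : ℝ) / (W * h))) ((n : ℝ) / g * (1 / 2) ^ g + (1 / 2) ^ h)
            (f n g) := by
  have hMGF := Pool.Agent.L0h85.HN.t_MGF
  have hVDM := Pool.Agent.L0h85.HN.t_VDM
  have hFIB := Pool.Agent.LLead.LT2.t_FIB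
  have hLAB := Pool.Agent.L0h37.HN.t_LAB (Pool.Agent.L0h37.HN.t_CON hMGF)
    (Pool.Agent.L0h85.HN.t_SMP hMGF) Pool.Agent.L0h37.HN.t_SELX
  have hRCT := Pool.Agent.L0h11.HN.t_RCT
    (Pool.Agent.L0h76.HN.t_COR2 Pool.Agent.L0h37.HN.t_DEN2) hVDM hFIB
  have hUNI := Pool.Agent.L0h85.HN.t_UNI Pool.Agent.L0h76.HN.t_ZER2 hVDM hFIB
  exact all (t_DET hLAB hRCT) hUNI Pool.Agent.L0h6.HN.t_NON2 Pool.Agent.L0h6.HN.t_PAR3
    Pool.Agent.LLead.LT.t_RNK Pool.Agent.LLead.LT.t_CNT Pool.Agent.L0h37.HN.t_SELB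

theorem nodes_le {n g : ℕ} (hg : 1 ≤ g) (hn : n ≤ 2 ^ g) :
    (g + 1) * 2 ^ g + (n + 1) * 2 ^ (14 * g) ≤ 2 ^ (17 * g) := by
  have h1 : g + 1 ≤ 2 ^ g := Nat.lt_two_pow_self
  have h2 : n + 1 ≤ 2 ^ (g + 1) := by
    have h3 : 1 ≤ 2 ^ g := Nat.one_le_two_pow
    rw [pow_succ]
    omega
  calc (g + 1) * 2 ^ g + (n + 1) * 2 ^ (14 * g) ≤
      2 ^ g * 2 ^ g + 2 ^ (g + 1) * 2 ^ (14 * g) :=
        Nat.add_le_add (Nat.mul_le_mul_right _ h1) (Nat.mul_le_mul_right _ h2)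
    _ = 2 ^ (g + g) + 2 ^ (g + 1 + 14 * g) := by rw [← pow_add, ← pow_add]
    _ ≤ 2 ^ (16 * g) + 2 ^ (16 * g) := by
      apply Nat.add_le_add
      · exact Nat.pow_le_pow_right (by norm_num) (by omega)
      · exact Nat.pow_le_pow_right (by norm_num) (by omega)
    _ = 2 ^ (16 * g + 1) := by rw [pow_succ]; ring
    _ ≤ 2 ^ (17 * g) := Nat.pow_le_pow_right (by norm_num) (by omega)

/-- The bound for nondeterministic programs. -/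
theorem nondet {n T B g h W g' : ℕ} {f : Inp n → Bool} (hW : 1 ≤ W) (hh : 1 ≤ h)
    (hWh : 2 * W * h ^ 2 ≤ n)
    (hb : Blind n T (2 ^ ((n : ℝ) / (W * h))) ((n : ℝ) / g * (1 / 2) ^ g + (1 / 2) ^ h) f)
    (hf : Guess n T B g' f) (hB : (B : ℝ) ≤ 2 ^ ((n : ℝ) / (2 * W * h))) :
    (1 / 2 : ℝ) ^ g' ≤ (n : ℝ) / g * (1 / 2) ^ g + (1 / 2) ^ h := by
  rcases le_or_gt h g' with h1 | h1
  · have h2 : (1 / 2 : ℝ) ^ g' ≤ (1 / 2) ^ h :=
      pow_le_pow_of_le_one (by norm_num) (by norm_num) h1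
    have h3 : (0 : ℝ) ≤ (n : ℝ) / g * (1 / 2) ^ g := by positivity
    linarith
  · refine Pool.Agent.L0h13.HN.t_GUE n T B g' _ _ f hb hf ?_
    have hWr : (0 : ℝ) < W := by exact_mod_cast hW
    have hhr : (0 : ℝ) < h := by exact_mod_cast hh
    have h2 : ((g' + 1 : ℕ) : ℝ) ≤ 2 ^ ((n : ℝ) / (2 * W * h)) := by
      have h3 : g' + 1 ≤ 2 ^ h := h1.trans_le (Nat.lt_two_pow_self).le
      have h4 : ((g' + 1 : ℕ) : ℝ) ≤ (2 : ℝ) ^ (h : ℝ) := by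
        rw [Real.rpow_natCast]
        exact_mod_cast h3
      refine h4.trans (Real.rpow_le_rpow_of_exponent_le (by norm_num) ?_)
      rw [le_div_iff₀ (by positivity)]
      have h5 : ((2 * W * h ^ 2 : ℕ) : ℝ) ≤ n := by exact_mod_cast hWh
      push_cast at h5
      linarith
    have h6 : (((g' + 1) * B : ℕ) : ℝ) = ((g' + 1 : ℕ) : ℝ) * B := by push_cast; ring
    rw [h6]
    have h7 : (2 : ℝ) ^ ((n : ℝ) / (2 * W * h)) * 2 ^ ((n : ℝ) / (2 * W * h)) =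
        2 ^ ((n : ℝ) / (W * h)) := by
      rw [← Real.rpow_add (by norm_num)]
      congr 1
      field_simp
      ring
    rw [← h7]
    exact mul_le_mul h2 hB (Nat.cast_nonneg _) (by positivity)

end Pool.Agent.L0h58.HN
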