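import Pool.Agent.L0h58.HN.Blind

/-!
# One family of functions for all time bounds, fewer guesses with more states
-/

set_option autoImplicit false

namespace Pool.Agent.L0h58.HN

open Finset Pool.Agent.L0h32.LT Pool.Agent.L0h32.LT2

theorem blind_mono {n T : ℕ} {L L' δ δ' : ℝ} {f : Inp n → Bool} (hL : L' ≤ L) (hδ : δ ≤ δ')
    (h : Blind n T L δ f) : Blind n T L' δ' f := by
  intro Ω _ p V _ P hp hp1 hcard a b ha hb h1 h0
  exact (h Ω p V P hp hp1 (fun ω => (hcard ω).trans hL) a b ha hb h1 h0).trans hδ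

/-- Some guesses are replaced by a parallel simulation. -/
theorem nonP_fewer {n g B : ℕ} {f : Inp n → Bool} (h : NonP n g B f) {j : ℕ} (hj : j ≤ g) :
    NonP n (g - j) (B ^ 2 ^ j) f := by
  classical
  obtain ⟨V, hV, start, next, acc, hB, hf⟩ := h
  let glue : (Fin (g - j) → Bool) → (Fin j → Bool) → (Fin g → Bool) := fun ω η i =>
    if h : (i : ℕ) < g - j then ω ⟨i, h⟩ else η ⟨i - (g - j), by have := i.isLt; omega⟩
  have hsurj : ∀ ω : Fin g → Bool, ∃ a b, glue a b = ω := by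
    intro ω
    refine ⟨fun i => ω ⟨i, by have := i.isLt; omega⟩,
      fun i => ω ⟨i + (g - j), by have := i.isLt; omega⟩, ?_⟩
    funext i
    show (if h : (i : ℕ) < g - j then _ else _) = _
    split_ifs with h
    · rfl
    · refine congrArg ω (Fin.ext ?_)
      show (i : ℕ) - (g - j) + (g - j) = i
      omega
  have hfold : ∀ (x : Inp n) (l : List (Fin n)) (v : (Fin j → Bool) → V) (η : Fin j → Bool),
      (l.foldl (fun (v : (Fin j → Bool) → V) i => fun η => next i (v η) (x i)) v) η =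
        l.foldl (fun v i => next i v (x i)) (v η) := by
    intro x l
    induction l with
    | nil => intro v η; rfl
    | cons i l ih =>
      intro v η
      exact ih _ η
  refine ⟨(Fin j → Bool) → V, inferInstance, fun ω η => start (glue ω η),
    fun i v b η => next i (v η) b, fun v => ∃ η, acc (v η), ?_, fun x => ?_⟩
  · rw [Nat.card_fun, Nat.card_eq_fintype_card (α := Fin j → Bool), Fintype.card_fun,
      Fintype.card_bool, Fintype.card_fin]
    exact Nat.pow_le_pow_left hB _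
  · rw [hf x]
    simp only [hfold]
    constructor
    · rintro ⟨ω, hω⟩
      obtain ⟨a, b, hab⟩ := hsurj ω
      exact ⟨a, b, by rw [hab]; exact hω⟩
    · rintro ⟨a, b, hab⟩
      exact ⟨_, hab⟩

/-- **One family of functions for all time bounds.** -/
theorem all (hdet : S_DET) (huni : S_UNI) (hnon : S_NON2) (hpar : S_PAR3) (hrnk : S_RNK)
    (hcnt : S_CNT) (hselb : S_SELB) :
    ∃ f : (n g : ℕ) → Inp n → Bool,
      (∀ n g, 1 ≤ n → n ≤ 2 ^ g → NonP n g (2 ^ (14 * g)) (f n g)) ∧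
      ∀ k : ℕ, ∃ W n₀ : ℕ, 1 ≤ W ∧ ∀ n ≥ n₀, ∀ g : ℕ, n ≤ 2 ^ g → W * g ≤ n →
        ∀ T ≤ k * n, ∀ h : ℕ, 1 ≤ h → W * h ^ 2 ≤ n →
          Blind n T (2 ^ ((n : ℝ) / (W * h))) ((n : ℝ) / g * (1 / 2) ^ g + (1 / 2) ^ h)
            (f n g) := by
  classical
  choose W n₀ hW hbase using base hdet huni hnon hpar hrnk hcnt
  have key : ∀ N g : ℕ, ∃ f : Inp N → Bool,
      (1 ≤ N → N ≤ 2 ^ g → NonP N g (2 ^ (14 * g)) f) ∧
      ∀ k, k < N / 2 → n₀ k ≤ N - N / 2 → N - N / 2 ≤ 2 ^ g → W k * g ≤ N - N / 2 →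
        ∀ T ≤ k * (N - N / 2), ∀ h : ℕ, 1 ≤ h → W k * h ^ 2 ≤ N - N / 2 →
          Blind N T (2 ^ (((N - N / 2 : ℕ) : ℝ) / (W k * h)))
            (((N - N / 2 : ℕ) : ℝ) / g * (1 / 2) ^ g + (1 / 2) ^ h) f := by
    intro N g
    obtain ⟨t, n, ht, hn, rfl⟩ : ∃ t n, t = N / 2 ∧ n = N - N / 2 ∧ N = t + n :=
      ⟨_, _, rfl, rfl, by omega⟩
    rw [← ht]
    have e : t + n - t = n := by omega
    rw [e]
    rcases Nat.eq_zero_or_pos n with h0 | h0
    · refine ⟨fun _ => false, fun h => ?_, fun k hk => ?_⟩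
      · omega
      · omega
    have hg : ∀ k : Fin t, ∃ F : Inp n → Bool, NonP n g (2 ^ (13 * g)) F ∧
        (n₀ k ≤ n → n ≤ 2 ^ g → W k * g ≤ n → ∀ T ≤ k * n, ∀ h : ℕ, 1 ≤ h → W k * h ^ 2 ≤ n →
          Blind n T (2 ^ ((n : ℝ) / (W k * h))) ((n : ℝ) / g * (1 / 2) ^ g + (1 / 2) ^ h) F) := by
      intro k
      by_cases h : n₀ k ≤ n ∧ n ≤ 2 ^ g ∧ W k * g ≤ n
      · obtain ⟨F, h1, h2⟩ := hbase k n h.1 g h.2.1 h.2.2
        exact ⟨F, h1, fun _ _ _ => h2⟩
      · exact ⟨fun _ => false, nonP_false _ _ _ (Nat.one_le_pow _ _ (by norm_num)),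
          fun h1 h2 h3 => absurd ⟨h1, h2, h3⟩ h⟩
    choose F hF1 hF2 using hg
    refine ⟨sel F, fun _ hN => ?_, fun k hk h1 h2 h3 T hT h hh hWh => ?_⟩
    · refine nonP_mono le_rfl ?_ (sel_nonP F hF1)
      rcases Nat.eq_zero_or_pos g with hg0 | hg0
      · have ht0 : t = 0 := by
          rw [hg0] at hN
          omega
        rw [hg0, ht0]
        norm_num
      · have h1 : t * 2 ≤ 2 ^ g := by omega
        have h2 : 2 ^ g * 2 ≤ 2 ^ (14 * g) := by
          rw [← pow_succ]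
          exact Nat.pow_le_pow_right (by norm_num) (by omega)
        have h3 : t * 2 ^ (13 * g) * 2 ≤ 2 ^ (14 * g) := by
          calc t * 2 ^ (13 * g) * 2 = t * 2 * 2 ^ (13 * g) := by ring
            _ ≤ 2 ^ g * 2 ^ (13 * g) := Nat.mul_le_mul_right _ h1
            _ = 2 ^ (14 * g) := by
              rw [← pow_add]
              congr 1
              ring
        omega
    · exact hselb t n T _ _ F ⟨k, hk⟩ h0 (hF2 ⟨k, hk⟩ h1 h2 h3 T hT h hh hWh)
  choose f hf1 hf2 using key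
  refine ⟨f, hf1, fun k => ⟨2 * W (2 * k), 2 * n₀ (2 * k) + 8 * k + 2,
    by have := hW (2 * k); omega, fun N hN g hNg hWg T hT h hh hWh => ?_⟩⟩
  have hWpos := hW (2 * k)
  have h1 : W (2 * k) * g ≤ N - N / 2 := by
    have : 2 * W (2 * k) * g = 2 * (W (2 * k) * g) := by ring
    omega
  have h2 : W (2 * k) * h ^ 2 ≤ N - N / 2 := by
    have : 2 * W (2 * k) * h ^ 2 = 2 * (W (2 * k) * h ^ 2) := by ring
    omega
  have h3 : T ≤ 2 * k * (N - N / 2) := by
    have h4 : N ≤ 2 * (N - N / 2) := by omega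
    calc T ≤ k * N := hT
      _ ≤ k * (2 * (N - N / 2)) := Nat.mul_le_mul_left _ h4
      _ = 2 * k * (N - N / 2) := by ring
  have h5 := hf2 N g (2 * k) (by omega) (by omega) (by omega) h1 T h3 h hh h2
  have hNr : (N : ℝ) ≤ 2 * ((N - N / 2 : ℕ) : ℝ) := by
    have : N ≤ 2 * (N - N / 2) := by omega
    exact_mod_cast this
  have hNr' : ((N - N / 2 : ℕ) : ℝ) ≤ N := by
    have : N - N / 2 ≤ N := Nat.sub_le _ _
    exact_mod_cast this
  have hWr : (0 : ℝ) < W (2 * k) := by exact_mod_cast hWpos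
  have hhr : (0 : ℝ) < h := by exact_mod_cast hh
  refine blind_mono ?_ ?_ h5
  · apply Real.rpow_le_rpow_of_exponent_le (by norm_num)
    push_cast
    rw [div_le_div_iff₀ (by positivity) (by positivity)]
    have h6 : (0 : ℝ) ≤ W (2 * k) * h := by positivity
    calc (N : ℝ) * (W (2 * k) * h) ≤ 2 * ((N - N / 2 : ℕ) : ℝ) * (W (2 * k) * h) :=
          mul_le_mul_of_nonneg_right hNr h6
      _ = ((N - N / 2 : ℕ) : ℝ) * (2 * W (2 * k) * h) := by ring
  · have h6 : ((N - N / 2 : ℕ) : ℝ) / g ≤ N / g :=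
      div_le_div_of_nonneg_right hNr' (Nat.cast_nonneg g)
    have h7 : (0 : ℝ) ≤ (1 / 2) ^ g := by positivity
    have h8 := mul_le_mul_of_nonneg_right h6 h7
    linarith

end Pool.Agent.L0h58.HN
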