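import Pool.Agent.L0h32.LT.Comb

/-!
# Programs: definitions and statements of the parts about programs
-/

set_option autoImplicit false

namespace Pool.Agent.L0h58.HN

open Finset Pool.Agent.L0h32.LT

/-- A branching program. -/
structure BP (n : ℕ) (V : Type) where
  start : V
  var : V → Fin n
  next : V → Bool → V
  out : V → Option Bool

/-- One step. Output nodes are never left. -/
def BP.step {n : ℕ} {V : Type} (P : BP n V) (x : Inp n) (v : V) : V :=
  if (P.out v).isSome then v else P.next v (x (P.var v))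

/-- The program accepts the input within `T` steps. -/
def BP.Accepts {n : ℕ} {V : Type} (P : BP n V) (T : ℕ) (x : Inp n) : Prop :=
  P.out ((P.step x)^[T] P.start) = some true

open Classical in
/-- No randomized program of time `T` with at most `L` nodes distinguishes the ones of `f` from the
zeros of `f` with an advantage of more than `δ`. -/
def Blind (n T : ℕ) (L δ : ℝ) (f : Inp n → Bool) : Prop :=
  ∀ (Ω : Type) [Fintype Ω] (p : Ω → ℝ) (V : Ω → Type) [∀ ω, Finite (V ω)]
    (P : ∀ ω, BP n (V ω)), (∀ ω, 0 ≤ p ω) → ∑ ω, p ω = 1 → (∀ ω, (Nat.card (V ω) : ℝ) ≤ L) →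
    ∀ a b : ℝ, a ≤ 1 → 0 ≤ b →
      (∀ x, f x = true → a ≤ ∑ ω, if (P ω).Accepts T x then p ω else 0) →
      (∀ x, f x = false → (∑ ω, if (P ω).Accepts T x then p ω else 0) ≤ b) → a - b ≤ δ

/-- A nondeterministic branching program. A step may depend on a guessed bit. -/
structure NBP (n : ℕ) (V : Type) where
  start : V
  var : V → Fin n
  next : V → Bool → Bool → V
  out : V → Option Bool

/-- One step with the guessed bit `c`. Output nodes are never left. -/
def NBP.step {n : ℕ} {V : Type} (P : NBP n V) (x : Inp n) (v : V) (c : Bool) : V :=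
  if (P.out v).isSome then v else P.next v (x (P.var v)) c

/-- The node after `t` steps with the guessed bits `γ`. -/
def NBP.run {n : ℕ} {V : Type} (P : NBP n V) (x : Inp n) (γ : ℕ → Bool) : ℕ → V
  | 0 => P.start
  | t + 1 => P.step x (P.run x γ t) (γ t)

open Classical in
/-- The input has an accepting computation of length at most `T` with at most `g` genuine guesses. -/
def NBP.Accepts {n : ℕ} {V : Type} (P : NBP n V) (T g : ℕ) (x : Inp n) : Prop :=
  ∃ γ : ℕ → Bool, P.out (P.run x γ T) = some true ∧
    ((range T).filter fun t =>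
      P.step x (P.run x γ t) false ≠ P.step x (P.run x γ t) true).card ≤ g

/-- The function is computed by a nondeterministic program with at most `B` nodes in time `T` with
`g` guesses. -/
def Guess (n T B g : ℕ) (f : Inp n → Bool) : Prop :=
  ∃ (V : Type) (_ : Finite V) (P : NBP n V), Nat.card V ≤ B ∧ ∀ x, f x = true ↔ P.Accepts T g x

/-- **GUE.** Guesses are coins. -/
def S_GUE : Prop :=
  ∀ (n T B g : ℕ) (L δ : ℝ) (f : Inp n → Bool), Blind n T L δ f → Guess n T B g f →
    (((g + 1) * B : ℕ) : ℝ) ≤ L → (1 / 2 : ℝ) ^ g ≤ δ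

/-- **SIM.** One-pass programs are programs. -/
def S_SIM : Prop :=
  ∀ (n g B : ℕ) (f : Inp n → Bool), 1 ≤ n →
    (∃ (V : Type) (_ : Finite V) (start : (Fin g → Bool) → V) (next : Fin n → V → Bool → V)
      (acc : V → Prop), Nat.card V ≤ B ∧
        ∀ x : Inp n, f x = true ↔
          ∃ ω, acc ((List.finRange n).foldl (fun v i => next i v (x i)) (start ω))) →
    Guess n (n + g + 1) ((g + 1) * 2 ^ g + (n + 1) * B) g f

/-- **SELG.** Selection, upper bound. -/
def S_SELG : Prop :=
  ∀ (t n T B g : ℕ) (F : Fin t → Inp n → Bool), 1 ≤ n → (∀ k, Guess n T B g (F k)) →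
    Guess (t + n) (t + T) (t * B + t * (t + 1) + 1) g (sel F)

/-- **SELB.** Selection, lower bound. -/
def S_SELB : Prop :=
  ∀ (t n T : ℕ) (L δ : ℝ) (F : Fin t → Inp n → Bool) (k : Fin t), 1 ≤ n →
    Blind n T L δ (F k) → Blind (t + n) T L δ (sel F)

end Pool.Agent.L0h58.HN
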