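import Pool.Agent.L0h58.HN.Stm
import Pool.Agent.L0h58.HN.Prog

/-!
# From deterministic to randomized programs
-/

set_option autoImplicit false

namespace Pool.Agent.L0h58.HN

open Finset Pool.Agent.L0h32.LT

open Classical in
/-- Averaging. -/
theorem avg {Ω X : Type} [Fintype Ω] [Fintype X] (p : Ω → ℝ) (acc : Ω → X → Prop) (f : X → Prop)
    (N q κ ex ε a b : ℝ) (hp : ∀ ω, 0 ≤ p ω) (hp1 : ∑ ω, p ω = 1) (hN : 0 < N) (hq : 0 < q)
    (hκ : 0 ≤ κ) (hex : 0 ≤ ex) (hε : 0 ≤ ε) (hX : 0 < Fintype.card X) (ha : a ≤ 1) (hb : 0 ≤ b)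
    (h1' : ∀ ω, ∀ A B : Finset X, (∀ x, x ∈ A ↔ ¬ acc ω x) → (∀ x, x ∈ B ↔ ¬ acc ω x ∧ f x) →
      N * A.card ≤ q * B.card + κ * A.card + N * (ex * Fintype.card X))
    (h2' : ∀ A : Finset X, (∀ x, x ∈ A ↔ f x) → q * A.card ≤ N * (1 + ε) * Fintype.card X)
    (h3 : ∀ x, f x → a ≤ ∑ ω, if acc ω x then p ω else 0)
    (h4 : ∀ x, ¬ f x → (∑ ω, if acc ω x then p ω else 0) ≤ b) :
    a - b ≤ (1 + ε) * (N / q) + ε + κ / N + ex := by
  have hXr : (0 : ℝ) < Fintype.card X := by exact_mod_cast hX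
  have h1 : ∀ ω, N * (univ.filter fun x => ¬ acc ω x).card ≤
      q * (univ.filter fun x => ¬ acc ω x ∧ f x).card + κ * (univ.filter fun x => ¬ acc ω x).card +
        N * (ex * Fintype.card X) := fun ω =>
    h1' ω _ _ (fun x => by simp) (fun x => by simp)
  have h2 : q * (univ.filter fun x => f x).card ≤ N * (1 + ε) * Fintype.card X :=
    h2' _ (fun x => by simp)
  -- trivial cases
  have hR0 : 0 ≤ (1 + ε) * (N / q) + ε + κ / N + ex := by positivity
  rcases le_or_gt a 0 with ha0 | ha0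
  · linarith
  rcases le_or_gt 1 b with hb1 | hb1
  · linarith
  -- the expectations
  have hcompl : ∀ x, ∑ ω, (if ¬ acc ω x then p ω else 0) = 1 - ∑ ω, if acc ω x then p ω else 0 := by
    intro x
    rw [← hp1, ← sum_sub_distrib]
    refine sum_congr rfl fun ω _ => ?_
    by_cases h : acc ω x
    · rw [if_neg (not_not.2 h), if_pos h, sub_self]
    · rw [if_pos h, if_neg h, sub_zero]
  have hswap : ∀ (R : X → Prop), ∑ ω, p ω * ((univ.filter fun x => ¬ acc ω x ∧ R x).card : ℝ) =
      ∑ x ∈ univ.filter fun x => R x, (1 - ∑ ω, if acc ω x then p ω else 0) := by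
    intro R
    have e1 : ∀ ω, p ω * ((univ.filter fun x => ¬ acc ω x ∧ R x).card : ℝ) =
        ∑ x ∈ univ.filter fun x => R x, (if ¬ acc ω x then p ω else 0) := by
      intro ω
      rw [← sum_filter, filter_filter, sum_const, nsmul_eq_mul, mul_comm]
      congr 3
      ext x
      simp only [mem_filter, mem_univ, true_and]
      exact and_comm
    rw [sum_congr rfl fun ω _ => e1 ω, sum_comm]
    exact sum_congr rfl fun x _ => hcompl x
  obtain ⟨u, hu⟩ : ∃ u, u = ∑ ω, p ω * ((univ.filter fun x => ¬ acc ω x ∧ f x).card : ℝ) :=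
    ⟨_, rfl⟩
  obtain ⟨w, hw⟩ : ∃ w, w = ∑ ω, p ω * ((univ.filter fun x => ¬ acc ω x).card : ℝ) := ⟨_, rfl⟩
  obtain ⟨R, hR⟩ : ∃ R : X → Prop, ∀ x, R x ↔ ¬ f x := ⟨fun x => ¬ f x, fun x => Iff.rfl⟩
  obtain ⟨w', hw'⟩ : ∃ w', w' = ∑ ω, p ω * ((univ.filter fun x => ¬ acc ω x ∧ R x).card : ℝ) :=
    ⟨_, rfl⟩
  have hu1 : u ≤ (1 - a) * (univ.filter fun x => f x).card := by
    rw [hu, hswap f]
    refine (sum_le_card_nsmul _ _ (1 - a) fun x hx => ?_).trans (le_of_eq ?_)
    · have := h3 x (mem_filter.1 hx).2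
      linarith
    · rw [nsmul_eq_mul, mul_comm]
  have hw1 : (1 - b) * ((Fintype.card X : ℝ) - (univ.filter fun x => f x).card) ≤ w' := by
    rw [hw', hswap R]
    have e1 : ((univ.filter fun x => R x).card : ℝ) =
        (Fintype.card X : ℝ) - (univ.filter fun x => f x).card := by
      have h5 := card_filter_add_card_filter_not (s := (univ : Finset X)) (fun x => f x)
      have h6 : (univ.filter fun x => R x) = univ.filter fun x => ¬ f x :=
        filter_congr fun x _ => hR x
      rw [card_univ, ← h6] at h5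
      rw [← h5]
      push_cast
      ring
    rw [← e1]
    refine le_trans (le_of_eq ?_) (card_nsmul_le_sum _ _ (1 - b) fun x hx => ?_)
    · rw [nsmul_eq_mul, mul_comm]
    · have := h4 x ((hR x).1 (mem_filter.1 hx).2)
      linarith
  have hww' : w' ≤ w := by
    rw [hw, hw']
    refine sum_le_sum fun ω _ => mul_le_mul_of_nonneg_left ?_ (hp ω)
    have : (univ.filter fun x => ¬ acc ω x ∧ R x).card ≤ (univ.filter fun x => ¬ acc ω x).card :=
      card_le_card fun x hx => mem_filter.2 ⟨mem_univ _, (mem_filter.1 hx).2.1⟩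
    exact_mod_cast this
  have hwX : w ≤ Fintype.card X := by
    rw [hw]
    have : ∑ ω, p ω * ((univ.filter fun x => ¬ acc ω x).card : ℝ) ≤
        ∑ ω, p ω * (Fintype.card X : ℝ) := by
      refine sum_le_sum fun ω _ => mul_le_mul_of_nonneg_left ?_ (hp ω)
      have : (univ.filter fun x => ¬ acc ω x).card ≤ Fintype.card X := card_le_univ _
      exact_mod_cast this
    rw [← sum_mul, hp1, one_mul] at this
    exact this
  have hmain : N * w ≤ q * u + κ * w + N * (ex * Fintype.card X) := by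
    have e1 : ∑ ω, p ω * (N * ((univ.filter fun x => ¬ acc ω x).card : ℝ)) ≤
        ∑ ω, p ω * (q * ((univ.filter fun x => ¬ acc ω x ∧ f x).card : ℝ) +
          κ * ((univ.filter fun x => ¬ acc ω x).card : ℝ) + N * (ex * Fintype.card X)) :=
      sum_le_sum fun ω _ => mul_le_mul_of_nonneg_left (h1 ω) (hp ω)
    have e2 : ∑ ω, p ω * (N * ((univ.filter fun x => ¬ acc ω x).card : ℝ)) = N * w := by
      rw [hw, mul_sum]
      exact sum_congr rfl fun ω _ => by ring
    have e3 : ∑ ω, p ω * (q * ((univ.filter fun x => ¬ acc ω x ∧ f x).card : ℝ) +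
          κ * ((univ.filter fun x => ¬ acc ω x).card : ℝ) + N * (ex * Fintype.card X)) =
        q * u + κ * w + N * (ex * Fintype.card X) := by
      have e4 : ∀ ω, p ω * (q * ((univ.filter fun x => ¬ acc ω x ∧ f x).card : ℝ) +
          κ * ((univ.filter fun x => ¬ acc ω x).card : ℝ) + N * (ex * Fintype.card X)) =
          q * (p ω * ((univ.filter fun x => ¬ acc ω x ∧ f x).card : ℝ)) +
          κ * (p ω * ((univ.filter fun x => ¬ acc ω x).card : ℝ)) +
            p ω * (N * (ex * Fintype.card X)) := fun ω => by ring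
      rw [sum_congr rfl fun ω _ => e4 ω, sum_add_distrib, sum_add_distrib, ← mul_sum, ← mul_sum,
        ← sum_mul, hp1, one_mul, hu, hw]
    rw [e2, e3] at e1
    exact e1
  have hc0 : (0 : ℝ) ≤ ((univ.filter fun x => f x).card : ℝ) := Nat.cast_nonneg _
  generalize ((univ.filter fun x => f x).card : ℝ) = c at *
  generalize (Fintype.card X : ℝ) = M at *
  -- the final inequality
  have g1 : q * u ≤ (1 - a) * (N * (1 + ε) * M) := by
    calc q * u ≤ q * ((1 - a) * c) := mul_le_mul_of_nonneg_left hu1 hq.le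
      _ = (1 - a) * (q * c) := by ring
      _ ≤ _ := mul_le_mul_of_nonneg_left h2 (by linarith)
  have g2 : κ * w ≤ κ * M := mul_le_mul_of_nonneg_left hwX hκ
  have g3 : (1 - b) * (M - c) ≤ w := hw1.trans hww'
  have g4 : (1 - b) * c ≤ c := by nlinarith
  have g5 : N * ((1 - b) * M) ≤ N * c + ((1 - a) * (N * (1 + ε) * M) + κ * M + N * (ex * M)) := by
    have e1 : N * ((1 - b) * (M - c)) ≤ N * w := mul_le_mul_of_nonneg_left g3 hN.le
    have e2 : N * ((1 - b) * c) ≤ N * c := mul_le_mul_of_nonneg_left g4 hN.le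
    have e3 : N * ((1 - b) * M) = N * ((1 - b) * (M - c)) + N * ((1 - b) * c) := by ring
    linarith
  have g6 : c ≤ (1 + ε) * (N / q) * M := by
    have : c * q ≤ (1 + ε) * N * M := by linarith
    rw [← le_div_iff₀ hq] at this
    refine this.trans (le_of_eq ?_)
    ring
  have g7 : N * ((1 - b) * M) ≤ N * (((1 + ε) * (N / q) + (1 - a) * (1 + ε) + κ / N + ex) * M) := by
    refine g5.trans ?_
    have e1 : N * c ≤ N * ((1 + ε) * (N / q) * M) := mul_le_mul_of_nonneg_left g6 hN.le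
    have e2 : N * (((1 + ε) * (N / q) + (1 - a) * (1 + ε) + κ / N + ex) * M) =
        N * ((1 + ε) * (N / q) * M) + ((1 - a) * (N * (1 + ε) * M) + κ * M + N * (ex * M)) := by
      field_simp
      ring
    rw [e2]
    linarith
  have g8 := le_of_mul_le_mul_left g7 hN
  have g9 := le_of_mul_le_mul_right g8 hXr
  have g10 : (1 - a) * ε ≤ ε := by nlinarith
  nlinarith

end Pool.Agent.L0h58.HN
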