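import Pool.Agent.L0h58.HN.Numh
import Pool.Agent.L0h58.HN.Avg
import Pool.Agent.L0h32.LT2.Comb

/-!
# The core of the assembly
-/

set_option autoImplicit false

namespace Pool.Agent.L0h58.HN

open Finset Pool.Agent.L0h32.LT Pool.Agent.L0h32.LT2

theorem half_sets {n m : ℕ} (hm : 2 * m ≤ n) :
    ∃ A B : Finset (Fin n), Disjoint A B ∧ A ∪ B = univ ∧ m ≤ A.card ∧ m ≤ B.card := by
  classical
  obtain ⟨A, -, hA⟩ := exists_subset_card_eq (s := (univ : Finset (Fin n))) (n := m) (by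
    rw [card_univ, Fintype.card_fin]
    omega)
  refine ⟨A, Aᶜ, disjoint_compl_right, union_compl A, hA.ge, ?_⟩
  rw [card_compl, Fintype.card_fin, hA]
  omega

/-- The segments. -/
theorem segments {k k' C1 C3 n h W : ℕ} (hk' : k' = k + 2) (hC11 : 1 ≤ C1)
    (hC3 : C3 = 2 * C1 * (k + 1) + 2) (hWC3 : C3 ≤ W) (hh : 1 ≤ h) (hWh : W * h ^ 2 ≤ n) :
    ∃ ℓ r : ℕ, 1 ≤ ℓ ∧ C1 * h * ℓ ≤ n ∧ (k + 1) * n ≤ r * ℓ ∧ r * ℓ ≤ k' * n ∧
      r + 1 ≤ C3 * h := by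
  have hhh : h ≤ h ^ 2 := Nat.le_self_pow (by norm_num) h
  have hC1h : C1 * h ≤ n := by
    refine le_trans (Nat.mul_le_mul (le_trans ?_ hWC3) hhh) hWh
    have : C1 * 1 ≤ C1 * (k + 1) := Nat.mul_le_mul_left _ (by omega)
    have e1 : 2 * C1 * (k + 1) = 2 * (C1 * (k + 1)) := by ring
    omega
  obtain ⟨ℓ, hℓ⟩ : ∃ ℓ, ℓ = n / (C1 * h) := ⟨_, rfl⟩
  have hpos1 : 0 < C1 * h := by positivity
  have hℓ1 : 1 ≤ ℓ := by
    rw [hℓ, Nat.le_div_iff_mul_le hpos1]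
    omega
  have hℓ2 : C1 * h * ℓ ≤ n := by
    rw [hℓ]
    exact Nat.mul_div_le _ _
  have hℓ3 : n < C1 * h * (ℓ + 1) := by
    rw [hℓ]
    exact Nat.lt_mul_div_succ _ hpos1
  obtain ⟨r, hr⟩ : ∃ r, r = (k + 1) * n / ℓ + 1 := ⟨_, rfl⟩
  refine ⟨ℓ, r, hℓ1, hℓ2, ?_, ?_, ?_⟩
  · have := Nat.lt_mul_div_succ ((k + 1) * n) (show 0 < ℓ by omega)
    rw [hr, mul_comm _ ℓ]
    exact this.le
  · have h1 := Nat.div_mul_le_self ((k + 1) * n) ℓ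
    have h2 : ℓ ≤ n := by
      rw [hℓ]
      exact Nat.div_le_self _ _
    have h3 : r * ℓ = (k + 1) * n / ℓ * ℓ + ℓ := by
      rw [hr]
      ring
    have h4 : k' * n = (k + 1) * n + n := by
      rw [hk']
      ring
    omega
  · have h0 : n ≤ 2 * C1 * h * ℓ := by
      have e1 : C1 * h * (ℓ + 1) = C1 * h * ℓ + C1 * h * 1 := by ring
      have e2 : 2 * C1 * h * ℓ = C1 * h * ℓ + C1 * h * ℓ := by ring
      have e3 : C1 * h * 1 ≤ C1 * h * ℓ := Nat.mul_le_mul_left _ hℓ1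
      omega
    have h1 : (k + 1) * n ≤ (k + 1) * (2 * C1 * h) * ℓ := by
      rw [mul_assoc]
      exact Nat.mul_le_mul_left _ h0
    have h2 : (k + 1) * n / ℓ ≤ (k + 1) * (2 * C1 * h) :=
      (Nat.div_le_div_right h1).trans (by rw [Nat.mul_div_cancel _ (by omega)])
    have h3 : C3 * h = (k + 1) * (2 * C1 * h) + 2 * h := by
      rw [hC3]
      ring
    omega

/-- The exceptional part is small. -/
theorem exc_le {k' y n r ℓ σ e Δ v h d D E C1 C2 C3 W : ℕ} (hk : 1 ≤ k') (hh : 1 ≤ h)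
    (hd : d = dx (2 * k') y) (hD : D = 2 ^ d) (hE : E = 2 ^ y) (hy : 2 ^ 17 * (d + 15) ≤ E)
    (hC1 : C1 = 64 * k' * E ^ 2 * D ^ 2) (hC2 : C2 = 2 * 4 ^ ee (2 * k') y * (4 + 2 * k'))
    (hC31 : 1 ≤ C3) (hW : W = 4096 * D * (C3 * (C2 + 1))) (hℓ1 : 1 ≤ ℓ) (hℓ : C1 * h * ℓ ≤ n)
    (hr : r + 1 ≤ C3 * h) (hσ : σ = C2 * h) (hWh : W * h ^ 2 ≤ n) (hn : 8192 * D ≤ n)
    (he : E * D * e ≤ 16 * n) (hΔ : n < 512 * D * (Δ + 1))
    (hI : (Idx n e).card * 2 ^ ((d + 12) * n) ≤ 2 ^ ((d + 12) * e) * (2 ^ (d + 12) + 2) ^ n)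
    (hv : (v : ℝ) ≤ 2 ^ ((n : ℝ) / (W * h))) :
    exc k' y n r ℓ σ e (3 * Δ) v ≤ (1 / 2) ^ h := by
  have hD1 : 1 ≤ D := by
    rw [hD]
    exact Nat.one_le_two_pow
  have hE1 : 1 ≤ E := by
    rw [hE]
    exact Nat.one_le_two_pow
  have t1 := term1 (k' := k') (h := h) (a := 4 ^ ee (2 * k') y) (σ := σ) hk hh
    (Nat.one_le_pow _ _ (by norm_num)) (by rw [hσ, hC2])
  have hB : (0 : ℝ) < 16 * k' * (2 ^ y) ^ 2 * (2 ^ dx (2 * k') y) ^ 2 * ℓ := by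
    have h1 : (0 : ℝ) < ℓ := by exact_mod_cast hℓ1
    have h2 : (0 : ℝ) < k' := by exact_mod_cast hk
    positivity
  have t2 := term2 (x := 3) (h := h) (A := (n : ℝ) / (16 * k' * (2 ^ y) ^ 2 *
      (2 ^ dx (2 * k') y) ^ 2 * ℓ)) (B := 16 * k' * (2 ^ y) ^ 2 * (2 ^ dx (2 * k') y) ^ 2 * ℓ)
    (n := n) hh hB (by
      have h1 : 4 * h * (16 * k' * (2 ^ y) ^ 2 * (2 ^ dx (2 * k') y) ^ 2 * ℓ) ≤ n := by
        refine le_trans (le_of_eq ?_) hℓ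
        rw [hC1, hE, hD, hd]
        ring
      exact_mod_cast h1) rfl rfl
  have hWr : (W : ℝ) ≠ 0 := by
    have : 0 < W := by
      rw [hW]
      positivity
    exact_mod_cast this.ne'
  have hhr : (h : ℝ) ≠ 0 := by
    have : 0 < h := hh
    exact_mod_cast this.ne'
  have t3 := term3 (r := r) (v := v) (n := n) (Δ := 3 * Δ) (b := d + 12) (e := e)
    (I := (Idx n e).card) (σ := σ) (h := h) (γ := 1 / (W * h)) hI (by
      refine hv.trans (le_of_eq ?_)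
      congr 1
      ring) (expo hD1 hy hC31 hW hh hWh hn hr hσ he hΔ hD)
  unfold exc
  push_cast at t1 t2
  have h3 : (0 : ℝ) ≤ (1 / 2) ^ h := by positivity
  linarith

end Pool.Agent.L0h58.HN
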