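import Pool.Agent.L0h58.HN.Mix
import Pool.Agent.L0h32.LT.Pop

/-!
# The classes of inputs of a machine
-/

set_option autoImplicit false

namespace Pool.Agent.L0h58.HN

open Finset Pool.Agent.L0h32.LT

/-- Summation over the classes. -/
theorem part {X κ : Type} [Fintype X] [DecidableEq X] [DecidableEq κ] (key : X → κ)
    (D0 bad : Finset X) (f : X → Prop) [DecidablePred f] (N q c : ℕ)
    (hD : ∀ x y, key x = key y → x ∈ D0 → y ∈ D0)
    (hc : ∀ x ∈ D0, (∃ y, key y = key x ∧ y ∉ bad) →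
      N * (univ.filter fun y => key y = key x).card ≤
        q * ((univ.filter fun y => key y = key x).filter f).card +
          c * (univ.filter fun y => key y = key x).card) :
    N * D0.card ≤ q * (D0.filter f).card + c * D0.card + N * bad.card := by
  have e1 : D0.card = ∑ κ ∈ D0.image key, (D0.filter fun x => key x = κ).card :=
    card_eq_sum_card_fiberwise fun x hx => mem_coe.2 (mem_image_of_mem key (mem_coe.1 hx))
  have e2 : (D0.filter f).card =
      ∑ κ ∈ D0.image key, ((D0.filter f).filter fun x => key x = κ).card :=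
    card_eq_sum_card_fiberwise fun x hx =>
      mem_coe.2 (mem_image_of_mem key (mem_filter.1 (mem_coe.1 hx)).1)
  have e3 : ∑ κ ∈ D0.image key, (bad.filter fun x => key x = κ).card ≤ bad.card := by
    have h1 : (bad.filter fun x => key x ∈ D0.image key).card =
        ∑ κ ∈ D0.image key,
          ((bad.filter fun x => key x ∈ D0.image key).filter fun x => key x = κ).card :=
      card_eq_sum_card_fiberwise fun x hx => mem_coe.2 (mem_filter.1 (mem_coe.1 hx)).2
    refine le_trans (le_of_eq ?_) (h1.symm.le.trans (card_le_card (filter_subset _ _)))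
    refine sum_congr rfl fun κ hκ => ?_
    congr 1
    ext x
    simp only [mem_filter]
    constructor
    · rintro ⟨h2, h3⟩
      exact ⟨⟨h2, by rw [h3]; exact hκ⟩, h3⟩
    · rintro ⟨⟨h2, _⟩, h3⟩
      exact ⟨h2, h3⟩
  have h1 : ∀ κ ∈ D0.image key, N * (D0.filter fun x => key x = κ).card ≤
      q * ((D0.filter f).filter fun x => key x = κ).card +
        c * (D0.filter fun x => key x = κ).card +
          N * (bad.filter fun x => key x = κ).card := by
    intro κ hκ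
    obtain ⟨x, hx, rfl⟩ := mem_image.1 hκ
    have h2 : (D0.filter fun y => key y = key x) = univ.filter fun y => key y = key x := by
      ext y
      simp only [mem_filter, mem_univ, true_and]
      exact ⟨fun h => h.2, fun h => ⟨hD x y h.symm hx, h⟩⟩
    have h3 : ((D0.filter f).filter fun y => key y = key x) =
        (univ.filter fun y => key y = key x).filter f := by
      rw [← h2, filter_filter, filter_filter]
      refine filter_congr fun y _ => and_comm
    rw [h2, h3]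
    by_cases h4 : ∃ y, key y = key x ∧ y ∉ bad
    · exact (hc x hx h4).trans (Nat.le_add_right _ _)
    · push Not at h4
      have h5 : (univ.filter fun y => key y = key x) ⊆ bad.filter fun y => key y = key x := by
        intro y hy
        have hy' := (mem_filter.1 hy).2
        exact mem_filter.2 ⟨h4 y hy', hy'⟩
      exact (Nat.mul_le_mul_left _ (card_le_card h5)).trans (Nat.le_add_left _ _)
  calc N * D0.card = ∑ κ ∈ D0.image key, N * (D0.filter fun x => key x = κ).card := by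
        rw [← mul_sum, ← e1]
    _ ≤ ∑ κ ∈ D0.image key, (q * ((D0.filter f).filter fun x => key x = κ).card +
        c * (D0.filter fun x => key x = κ).card +
          N * (bad.filter fun x => key x = κ).card) := sum_le_sum h1
    _ = q * (D0.filter f).card + c * D0.card +
        N * ∑ κ ∈ D0.image key, (bad.filter fun x => key x = κ).card := by
        rw [sum_add_distrib, sum_add_distrib, ← mul_sum, ← mul_sum, ← mul_sum, ← e1, ← e2]
    _ ≤ _ := Nat.add_le_add_left (Nat.mul_le_mul_left _ e3) _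

section
variable {n : ℕ} {V : Type} (P : Mach n V) (ℓ r : ℕ) (v₀ : V) {σ : ℕ} (S : Fin σ → Fin n)
  (Fl : (Fin σ → Finset (Fin r)) → Fin r → ℕ) (Z : (Fin σ → Finset (Fin r)) → Finset (Fin n))

/-- The boundary states. -/
def stl (x : Inp n) : Fin (r + 1) → V := fun s => bd P ℓ v₀ x s

/-- The sequence of states. -/
def ext {r : ℕ} {V : Type} (b : Fin (r + 1) → V) : ℕ → V :=
  fun s => if hs : s ≤ r then b ⟨s, by omega⟩ else b 0

/-- The record: the patterns of the sampled variables. -/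
def rcd (x : Inp n) : Fin σ → Finset (Fin r) := fun a => tt P ℓ (bd P ℓ v₀ x) r x (S a)

/-- The sets of the variables that are only read in segments with the label `a`. -/
def La (a : ℕ) (x : Inp n) : Finset (Fin n) :=
  Lb P ℓ (bd P ℓ v₀ x) (Fl (rcd P ℓ r v₀ S x)) (Z (rcd P ℓ r v₀ S x)) a x

/-- Two inputs are in the same class. -/
def Cls (x y : Inp n) : Prop :=
  stl P ℓ r v₀ x = stl P ℓ r v₀ y ∧ rcd P ℓ r v₀ S x = rcd P ℓ r v₀ S y ∧
    La P ℓ r v₀ S Fl Z 0 x = La P ℓ r v₀ S Fl Z 0 y ∧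
    La P ℓ r v₀ S Fl Z 1 x = La P ℓ r v₀ S Fl Z 1 y ∧
    ∀ i, i ∉ La P ℓ r v₀ S Fl Z 0 x → i ∉ La P ℓ r v₀ S Fl Z 1 x → x i = y i

/-- The key of a class. -/
def key (x : Inp n) : (Fin (r + 1) → V) × (Fin σ → Finset (Fin r)) × Finset (Fin n) ×
    Finset (Fin n) × Inp n :=
  (stl P ℓ r v₀ x, rcd P ℓ r v₀ S x, La P ℓ r v₀ S Fl Z 0 x, La P ℓ r v₀ S Fl Z 1 x,
    fun i => if i ∈ La P ℓ r v₀ S Fl Z 0 x ∨ i ∈ La P ℓ r v₀ S Fl Z 1 x then false else x i)

theorem key_iff (x y : Inp n) :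
    key P ℓ r v₀ S Fl Z x = key P ℓ r v₀ S Fl Z y ↔ Cls P ℓ r v₀ S Fl Z x y := by
  unfold key Cls
  constructor
  · intro h
    obtain ⟨h1, h⟩ := Prod.ext_iff.1 h
    obtain ⟨h2, h⟩ := Prod.ext_iff.1 h
    obtain ⟨h3, h⟩ := Prod.ext_iff.1 h
    obtain ⟨h4, h5⟩ := Prod.ext_iff.1 h
    dsimp only at h1 h2 h3 h4 h5
    refine ⟨h1, h2, h3, h4, fun i hi hi' => ?_⟩
    have h6 := congrFun h5 i
    rw [if_neg (by rintro (h | h); exacts [hi h, hi' h]),
      if_neg (by rw [← h3, ← h4]; rintro (h | h); exacts [hi h, hi' h])] at h6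
    exact h6
  · rintro ⟨h1, h2, h3, h4, h5⟩
    rw [h1, h2, h3, h4]
    refine Prod.ext rfl (Prod.ext rfl (Prod.ext rfl (Prod.ext rfl ?_)))
    funext i
    dsimp only
    split_ifs with h
    · rfl
    · rw [not_or, ← h3, ← h4] at h
      exact h5 i h.1 h.2

variable {P ℓ r v₀ S Fl Z}

theorem bd_ext {x : Inp n} {b : Fin (r + 1) → V} (h : stl P ℓ r v₀ x = b) :
    ∀ s ≤ r, bd P ℓ v₀ x s = ext b s := by
  intro s hs
  unfold ext
  rw [dif_pos hs, ← h]
  rfl

theorem tt_ext {x : Inp n} {b : Fin (r + 1) → V} (h : stl P ℓ r v₀ x = b) :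
    tt P ℓ (bd P ℓ v₀ x) r x = tt P ℓ (ext b) r x :=
  tt_congr fun s hs => bd_ext h s hs.le

theorem La_ext {x : Inp n} {b : Fin (r + 1) → V} {c : Fin σ → Finset (Fin r)}
    (h : stl P ℓ r v₀ x = b) (h' : rcd P ℓ r v₀ S x = c) (a : ℕ) :
    La P ℓ r v₀ S Fl Z a x = Lb P ℓ (ext b) (Fl c) (Z c) a x := by
  unfold La Lb
  rw [tt_ext h, h']

/-- The classes are closed under mixing. -/
theorem cls_mix {x₀ x y : Inp n} (hx : Cls P ℓ r v₀ S Fl Z x x₀)
    (hy : Cls P ℓ r v₀ S Fl Z y x₀) :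
    Cls P ℓ r v₀ S Fl Z (mix (La P ℓ r v₀ S Fl Z 1 x₀) x y) x₀ := by
  obtain ⟨hx1, hx2, hx3, hx4, hx5⟩ := hx
  obtain ⟨hy1, hy2, hy3, hy4, hy5⟩ := hy
  obtain ⟨b, hb⟩ : ∃ b, b = stl P ℓ r v₀ x₀ := ⟨_, rfl⟩
  obtain ⟨c, hc⟩ : ∃ c, c = rcd P ℓ r v₀ S x₀ := ⟨_, rfl⟩
  rw [← hb] at hx1 hy1
  rw [← hc] at hx2 hy2
  have ex := La_ext (Fl := Fl) (Z := Z) hx1 hx2
  have ey := La_ext (Fl := Fl) (Z := Z) hy1 hy2
  have hA : Lb P ℓ (ext b) (Fl c) (Z c) 0 x = Lb P ℓ (ext b) (Fl c) (Z c) 0 y := by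
    rw [← ex, ← ey, hx3, hy3]
  have hB : La P ℓ r v₀ S Fl Z 1 x₀ = Lb P ℓ (ext b) (Fl c) (Z c) 1 x := by rw [← hx4, ex]
  have hxy : ∀ i, i ∉ Lb P ℓ (ext b) (Fl c) (Z c) 0 x → i ∉ Lb P ℓ (ext b) (Fl c) (Z c) 1 x →
      x i = y i := by
    intro i hi hi'
    rw [← ex] at hi hi'
    rw [hx5 i hi hi']
    refine (hy5 i ?_ ?_).symm
    · rw [hy3, ← hx3]; exact hi
    · rw [hy4, ← hx4]; exact hi'
  rw [hB]
  obtain ⟨w, hw⟩ : ∃ w, w = mix (Lb P ℓ (ext b) (Fl c) (Z c) 1 x) x y := ⟨_, rfl⟩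
  have h1 : ∀ s ≤ r, bd P ℓ v₀ w s = ext b s := by
    rw [hw]
    exact bd_mix (bd_ext hx1) (bd_ext hy1) hA hxy
  have h2 : stl P ℓ r v₀ w = b := by
    funext s
    have := h1 s (by have := s.isLt; omega)
    unfold stl
    rw [this]
    unfold ext
    rw [dif_pos (by have := s.isLt; omega)]
  have h3 : rcd P ℓ r v₀ S w = c := by
    funext a
    have e1 : rcd P ℓ r v₀ S x a = tt P ℓ (ext b) r x (S a) := by
      unfold rcd
      rw [tt_ext hx1]
    have e2 : rcd P ℓ r v₀ S y a = tt P ℓ (ext b) r y (S a) := by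
      unfold rcd
      rw [tt_ext hy1]
    have e3 : rcd P ℓ r v₀ S w a = tt P ℓ (ext b) r w (S a) := by
      unfold rcd
      rw [tt_ext h2]
    rw [e3, hw, mix_tt hA hxy (by rw [← e1, ← e2, hx2, hy2]), ← e1, hx2]
  have h4 := La_ext (Fl := Fl) (Z := Z) h2 h3
  obtain ⟨h5, h6⟩ := mix_Lb hA hxy
  rw [← hw] at h5 h6
  have h7 : La P ℓ r v₀ S Fl Z 0 w = La P ℓ r v₀ S Fl Z 0 x₀ := by rw [h4, h5, ← ex, hx3]
  have h8 : La P ℓ r v₀ S Fl Z 1 w = La P ℓ r v₀ S Fl Z 1 x₀ := by rw [h4, h6, ← ex, hx4]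
  rw [← hw]
  refine ⟨by rw [h2, hb], by rw [h3, hc], h7, h8, fun i hi hi' => ?_⟩
  rw [h4] at hi'
  rw [h6] at hi'
  have h9 : w i = x i := by
    rw [hw]
    unfold mix
    rw [if_neg hi']
  rw [h9]
  refine hx5 i ?_ ?_
  · rw [hx3, ← h7]; exact hi
  · rw [ex]; exact hi'

end

end Pool.Agent.L0h58.HN
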