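import Pool.Agent.L0h58.HN.Stm

/-!
# Classes of inputs that are closed under mixing
-/

set_option autoImplicit false

namespace Pool.Agent.L0h58.HN

open Finset Pool.Agent.L0h32.LT

variable {n : ℕ} {V : Type} {P : Mach n V} {ℓ r : ℕ} {β : ℕ → V} {F : Fin r → ℕ}
  {Z : Finset (Fin n)}

theorem mem_tt {x : Inp n} {i : Fin n} {s : Fin r} :
    s ∈ tt P ℓ β r x i ↔ i ∈ seg P ℓ β x s := by
  unfold tt
  rw [mem_filter]
  exact ⟨fun h => h.2, fun h => ⟨mem_univ _, h⟩⟩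

/-- The two agreements of a mixed input. -/
theorem mix_agree {x y : Inp n}
    (hA : Lb P ℓ β F Z 0 x = Lb P ℓ β F Z 0 y)
    (hxy : ∀ i, i ∉ Lb P ℓ β F Z 0 x → i ∉ Lb P ℓ β F Z 1 x → x i = y i) :
    (∀ i, i ∉ Lb P ℓ β F Z 1 x → i ∉ Lb P ℓ β F Z 1 (mix (Lb P ℓ β F Z 1 x) x y) →
      x i = mix (Lb P ℓ β F Z 1 x) x y i) ∧
    (∀ i, i ∉ Lb P ℓ β F Z 0 y → i ∉ Lb P ℓ β F Z 0 (mix (Lb P ℓ β F Z 1 x) x y) →
      y i = mix (Lb P ℓ β F Z 1 x) x y i) := by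
  constructor
  · intro i hi _
    unfold mix
    rw [if_neg hi]
  · intro i hi _
    unfold mix
    split_ifs with h
    · rfl
    · exact (hxy i (by rw [hA]; exact hi) h).symm

/-- The sets of a mixed input. -/
theorem mix_Lb {x y : Inp n}
    (hA : Lb P ℓ β F Z 0 x = Lb P ℓ β F Z 0 y)
    (hxy : ∀ i, i ∉ Lb P ℓ β F Z 0 x → i ∉ Lb P ℓ β F Z 1 x → x i = y i) :
    Lb P ℓ β F Z 0 (mix (Lb P ℓ β F Z 1 x) x y) = Lb P ℓ β F Z 0 x ∧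
      Lb P ℓ β F Z 1 (mix (Lb P ℓ β F Z 1 x) x y) = Lb P ℓ β F Z 1 x := by
  obtain ⟨h1, h2⟩ := mix_agree hA hxy
  exact ⟨(Lb_eq h2).symm.trans hA.symm, (Lb_eq h1).symm⟩

/-- The patterns of a mixed input. -/
theorem mix_tt {x y : Inp n}
    (hA : Lb P ℓ β F Z 0 x = Lb P ℓ β F Z 0 y)
    (hxy : ∀ i, i ∉ Lb P ℓ β F Z 0 x → i ∉ Lb P ℓ β F Z 1 x → x i = y i) {i : Fin n}
    (hi : tt P ℓ β r x i = tt P ℓ β r y i) :
    tt P ℓ β r (mix (Lb P ℓ β F Z 1 x) x y) i = tt P ℓ β r x i := by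
  obtain ⟨h1, h2⟩ := mix_agree hA hxy
  ext s
  by_cases hs : F s = 1
  · have h3 := seg_eq h2 s (by rw [hs]; norm_num)
    rw [hi, mem_tt, mem_tt, h3]
  · have h3 := seg_eq h1 s hs
    rw [mem_tt, mem_tt, h3]

end Pool.Agent.L0h58.HN
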