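import Pool.Agent.L0h58.HN.Stm
import Pool.Agent.L0h32.LT.Num

/-!
# Numerical part
-/

set_option autoImplicit false

namespace Pool.Agent.L0h58.HN

open Finset Pool.Agent.L0h32.LT Pool.Agent.L0h32.LT2

theorem exp_neg_four (h : ℕ) (hh : 1 ≤ h) : Real.exp (-(4 * h)) ≤ 1 / 16 * (1 / 2) ^ h := by
  have e1 : Real.exp (-1) ≤ 1 / 2 := by
    rw [Real.exp_neg, one_div]
    apply inv_anti₀ (by norm_num)
    have := Real.exp_one_gt_d9
    linarith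
  have e4 : Real.exp (-4) ≤ 1 / 32 := by
    have h1 : Real.exp (-4) = Real.exp (-1) ^ 4 := by
      rw [← Real.exp_nat_mul]
      norm_num
    have e2 : Real.exp (-1) ≤ 2 / 5 := by
      rw [Real.exp_neg]
      have := Real.exp_one_gt_d9
      rw [inv_le_comm₀ (by positivity) (by norm_num)]
      linarith
    rw [h1]
    have h2 : Real.exp (-1) ^ 4 ≤ (2 / 5) ^ 4 :=
      pow_le_pow_left₀ (Real.exp_pos _).le e2 4
    refine h2.trans ?_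
    norm_num
  have h1 : Real.exp (-(4 * h)) = Real.exp (-4) ^ h := by
    rw [← Real.exp_nat_mul]
    congr 1
    ring
  rw [h1]
  obtain ⟨m, rfl⟩ := Nat.exists_eq_add_of_le hh
  have h2 : Real.exp (-4) ^ m ≤ (1 / 2) ^ m :=
    pow_le_pow_left₀ (Real.exp_pos _).le (e4.trans (by norm_num)) m
  have h3 : (0 : ℝ) ≤ (1 / 2) ^ m := by positivity
  have h4 := Real.exp_pos (-4)
  calc Real.exp (-4) ^ (1 + m) = Real.exp (-4) * Real.exp (-4) ^ m := by rw [pow_add, pow_one]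
    _ ≤ 1 / 32 * (1 / 2) ^ m := mul_le_mul e4 h2 (by positivity) (by norm_num)
    _ = 1 / 16 * (1 / 2) ^ (1 + m) := by rw [pow_add, pow_one]; ring

theorem term1 {k' h a σ : ℕ} (hk : 1 ≤ k') (hh : 1 ≤ h) (ha : 1 ≤ a)
    (hσ : σ = 2 * a * (4 + 2 * k') * h) :
    4 * (k' : ℝ) * Real.exp (-((σ : ℝ) / (2 * a))) ≤ 1 / 4 * (1 / 2) ^ h := by
  have har : (0 : ℝ) < a := by exact_mod_cast ha
  have hkr : (1 : ℝ) ≤ k' := by exact_mod_cast hk
  have hhr : (1 : ℝ) ≤ h := by exact_mod_cast hh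
  have h1 : (σ : ℝ) / (2 * a) = 4 * h + 2 * k' * h := by
    rw [hσ]
    push_cast
    field_simp
  rw [h1, neg_add, Real.exp_add]
  have h2 := exp_neg_four h hh
  have h3 : Real.exp (-(2 * k' * h)) ≤ 1 / (2 * k') := by
    rw [Real.exp_neg, one_div]
    apply inv_anti₀ (by positivity)
    have h4 : (2 : ℝ) * k' * h + 1 ≤ Real.exp (2 * k' * h) := Real.add_one_le_exp _
    have h5 : (2 : ℝ) * k' * 1 ≤ 2 * k' * h := mul_le_mul_of_nonneg_left hhr (by positivity)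
    linarith
  have h4 : Real.exp (-(4 * h)) * Real.exp (-(2 * k' * h)) ≤
      (1 / 16 * (1 / 2) ^ h) * (1 / (2 * k')) :=
    mul_le_mul h2 h3 (Real.exp_pos _).le (by positivity)
  calc 4 * (k' : ℝ) * (Real.exp (-(4 * h)) * Real.exp (-(2 * k' * h))) ≤
      4 * (k' : ℝ) * ((1 / 16 * (1 / 2) ^ h) * (1 / (2 * k'))) :=
        mul_le_mul_of_nonneg_left h4 (by positivity)
    _ = 1 / 8 * (1 / 2) ^ h := by
      field_simp
      norm_num
    _ ≤ 1 / 4 * (1 / 2) ^ h := mul_le_mul_of_nonneg_right (by norm_num) (by positivity)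

theorem term2 {x h : ℕ} {A B n : ℝ} (hh : 1 ≤ h) (hB : 0 < B) (hn : 4 * h * B ≤ n)
    (hx : x = 3) (hA : A = n / B) :
    (x : ℝ) * Real.exp (-A) ≤ 1 / 4 * (1 / 2) ^ h := by
  have h1 : 4 * (h : ℝ) ≤ A := by
    rw [hA, le_div_iff₀ hB]
    exact hn
  have h2 : Real.exp (-A) ≤ Real.exp (-(4 * h)) := Real.exp_le_exp.2 (by linarith)
  have h3 := h2.trans (exp_neg_four h hh)
  rw [hx]
  have h4 : (0 : ℝ) ≤ (1 / 2) ^ h := by positivity
  push_cast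
  linarith

theorem term3 {r v n Δ b e I σ h : ℕ} {γ : ℝ} (hI : I * 2 ^ (b * n) ≤ 2 ^ (b * e) * (2 ^ b + 2) ^ n)
    (hv : (v : ℝ) ≤ 2 ^ (γ * n))
    (hnum : 4 + ((r * σ + h : ℕ) : ℝ) + (r + 1) * (γ * n) + b * e + 4 * n / 2 ^ b < (Δ : ℝ)) :
    2 * (v : ℝ) ^ (r + 1) * 2 ^ (r * σ) * I / 2 ^ Δ ≤ 1 / 2 * (1 / 2) ^ h := by
  by_contra hcon
  rw [not_le, lt_div_iff₀ (by positivity), one_div_pow] at hcon
  have h1 : (2 : ℝ) ^ Δ < 4 * (v : ℝ) ^ (r + 1) * I * 2 ^ (r * σ + h) := by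
    have h2 : (0 : ℝ) < 2 ^ h := by positivity
    have h3 : 1 / 2 * (1 / (2 : ℝ) ^ h) * 2 ^ Δ * (2 * 2 ^ h) <
        2 * (v : ℝ) ^ (r + 1) * 2 ^ (r * σ) * I * (2 * 2 ^ h) :=
      mul_lt_mul_of_pos_right hcon (by positivity)
    have h4 : 1 / 2 * (1 / (2 : ℝ) ^ h) * 2 ^ Δ * (2 * 2 ^ h) = 2 ^ Δ := by
      field_simp
    have h5 : 2 * (v : ℝ) ^ (r + 1) * 2 ^ (r * σ) * I * (2 * 2 ^ h) =
        4 * (v : ℝ) ^ (r + 1) * I * 2 ^ (r * σ + h) := by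
      rw [pow_add]
      ring
    rw [h4, h5] at h3
    exact h3
  have h2 : 2 ^ Δ ≤ 4 * v ^ (r + 1) * I * 2 ^ (r * σ + h) := by
    have h6 : ((2 ^ Δ : ℕ) : ℝ) < ((4 * v ^ (r + 1) * I * 2 ^ (r * σ + h) : ℕ) : ℝ) := by
      push_cast
      exact h1
    exact (Nat.cast_lt.1 h6).le
  have h3 := num h2 hI hv
  push_cast at h3 hnum
  linarith

/-- The exponents. -/
theorem expo {n D E C2 C3 W r σ h d e Δ : ℕ} (hD1 : 1 ≤ D) (hE : 2 ^ 17 * (d + 15) ≤ E)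
    (hC3 : 1 ≤ C3) (hW : W = 4096 * D * (C3 * (C2 + 1))) (hh : 1 ≤ h) (hhn : W * h ^ 2 ≤ n)
    (hn : 8192 * D ≤ n) (hr : r + 1 ≤ C3 * h) (hσ : σ = C2 * h) (he : E * D * e ≤ 16 * n)
    (hΔ : n < 512 * D * (Δ + 1)) (hD : D = 2 ^ d) :
    4 + ((r * σ + h : ℕ) : ℝ) + (r + 1) * (1 / (W * h) * n) + (d + 12 : ℕ) * e +
      4 * n / 2 ^ (d + 12) < ((3 * Δ : ℕ) : ℝ) := by
  have hDr : (0 : ℝ) < D := by exact_mod_cast hD1
  have hhr : (1 : ℝ) ≤ h := by exact_mod_cast hh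
  have hC3r : (1 : ℝ) ≤ C3 := by exact_mod_cast hC3
  have hW0 : (0 : ℝ) < W := by
    have : 0 < W := by rw [hW]; positivity
    exact_mod_cast this
  obtain ⟨u, hu⟩ : ∃ u : ℝ, u = n / (8192 * D) := ⟨_, rfl⟩
  have hn' : (n : ℝ) = 8192 * D * u := by
    rw [hu]
    field_simp
  have hu1 : 1 ≤ u := by
    rw [hu, le_div_iff₀ (by positivity), one_mul]
    exact_mod_cast hn
  have a1 : C3 * (C2 + 1) * h ^ 2 * (4096 * D) ≤ n := by
    refine le_trans (le_of_eq ?_) hhn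
    rw [hW]
    ring
  have a1r : (C3 : ℝ) * (C2 + 1) * h ^ 2 ≤ 2 * u := by
    have : ((C3 * (C2 + 1) * h ^ 2 * (4096 * D) : ℕ) : ℝ) ≤ n := by exact_mod_cast a1
    push_cast at this
    rw [hn'] at this
    have h2 : (C3 : ℝ) * (C2 + 1) * h ^ 2 * (4096 * D) ≤ (2 * u) * (4096 * D) := by linarith
    exact le_of_mul_le_mul_right h2 (by positivity)
  have a2 : ((r * σ : ℕ) : ℝ) ≤ C3 * C2 * h ^ 2 := by
    have h1 : r * σ ≤ C3 * C2 * h ^ 2 := by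
      calc r * σ ≤ (C3 * h) * (C2 * h) := Nat.mul_le_mul (by omega) hσ.le
        _ = C3 * C2 * h ^ 2 := by ring
    exact_mod_cast h1
  have a3 : (h : ℝ) ≤ C3 * h ^ 2 := by
    have h1 : (h : ℝ) ≤ h ^ 2 := by nlinarith
    have h2 : (1 : ℝ) * h ^ 2 ≤ C3 * h ^ 2 := mul_le_mul_of_nonneg_right hC3r (by positivity)
    linarith
  have a4 : ((r : ℝ) + 1) * (1 / (W * h) * n) ≤ 2 * u := by
    have h1 : ((r : ℝ) + 1) ≤ C3 * h := by exact_mod_cast hr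
    have h2 : ((r : ℝ) + 1) * (1 / (W * h) * n) ≤ C3 * h * (1 / (W * h) * n) :=
      mul_le_mul_of_nonneg_right h1 (by positivity)
    refine h2.trans ?_
    have h3 : (C3 : ℝ) * h * (1 / (W * h) * n) = C3 * n / W := by
      field_simp
    rw [h3, div_le_iff₀ hW0, hW]
    push_cast
    rw [hn']
    have h4 : (0 : ℝ) ≤ C2 := Nat.cast_nonneg _
    have h5 : (0 : ℝ) ≤ C3 * D * u := by positivity
    nlinarith
  have a5 : ((d + 12 : ℕ) : ℝ) * e ≤ u := by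
    have h1 : 2 ^ 17 * (d + 15) * D * e ≤ 16 * n := by
      refine le_trans ?_ he
      exact Nat.mul_le_mul_right _ (Nat.mul_le_mul_right _ hE)
    have h2 : (d + 12) * e * (8192 * D) ≤ n := by
      have h3 : 16 * ((d + 12) * e * (8192 * D)) ≤ 2 ^ 17 * (d + 15) * D * e := by
        have h4 : 16 * ((d + 12) * e * (8192 * D)) = 2 ^ 17 * (d + 12) * D * e := by ring
        rw [h4]
        exact Nat.mul_le_mul_right _ (Nat.mul_le_mul_right _ (Nat.mul_le_mul_left _ (by omega)))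
      omega
    rw [hu, le_div_iff₀ (by positivity)]
    exact_mod_cast h2
  have a6 : 4 * (n : ℝ) / 2 ^ (d + 12) = 8 * u := by
    have h1 : (2 : ℝ) ^ (d + 12) = D * 4096 := by
      rw [pow_add, hD]
      push_cast
      norm_num
    rw [h1, hn']
    field_simp
    norm_num
  have a7 : 16 * u - 1 < (Δ : ℝ) := by
    have h1 : (n : ℝ) < 512 * D * (Δ + 1) := by exact_mod_cast hΔ
    rw [hn'] at h1
    have h2 : (512 * D : ℝ) * (16 * u) < 512 * D * (Δ + 1) := by linarith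
    have h3 := lt_of_mul_lt_mul_left h2 (by positivity)
    linarith
  have a8 : (C3 : ℝ) * (C2 + 1) * h ^ 2 = C3 * C2 * h ^ 2 + C3 * h ^ 2 := by ring
  push_cast at a2 a5 ⊢
  linarith

/-- The advantage. -/
theorem adv {n D g s Δ : ℕ} {ex : ℝ} {h : ℕ} (hD1 : 1 ≤ D) (hg : 1 ≤ g) (hs : s = 4 * D)
    (hgD : 4 * D ≤ g) (hgn : 4096 * D * g ≤ n) (hΔ : 512 * D * Δ ≤ n)
    (hex : ex ≤ (1 / 2) ^ h) :
    (1 + 2 ^ s / ((2 : ℝ) ^ (2 * g)) ^ 2) * ((2 : ℝ) ^ g / 2 ^ (2 * g)) +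
        2 ^ s / ((2 : ℝ) ^ (2 * g)) ^ 2 +
      (2 * ((s + 2 * (3 * Δ)) / (2 * g) : ℕ) + 2) / (2 : ℝ) ^ g + ex ≤
        (n : ℝ) / g * (1 / 2) ^ g + (1 / 2) ^ h := by
  have hgr : (1 : ℝ) ≤ g := by exact_mod_cast hg
  have hDr : (1 : ℝ) ≤ D := by exact_mod_cast hD1
  obtain ⟨t, ht⟩ : ∃ t : ℝ, t = (1 / 2) ^ g := ⟨_, rfl⟩
  have ht0 : 0 < t := by rw [ht]; positivity
  have ht1 : t ≤ 1 := by
    rw [ht]
    exact pow_le_one₀ (by norm_num) (by norm_num)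
  have hinv : (2 : ℝ) ^ g = 1 / t := by
    rw [ht, one_div_pow, one_div_one_div]
  have e1 : (2 : ℝ) ^ g / 2 ^ (2 * g) = t := by
    rw [mul_comm 2 g, pow_mul, hinv]
    field_simp
  have e2 : (2 : ℝ) ^ s / ((2 : ℝ) ^ (2 * g)) ^ 2 ≤ t := by
    have h1 : (2 : ℝ) ^ s ≤ 2 ^ g :=
      pow_le_pow_right₀ (by norm_num) (by omega)
    rw [mul_comm 2 g, pow_mul, hinv] at *
    have h2 : ((1 / t) ^ 2) ^ 2 = 1 / t ^ 4 := by
      field_simp
    rw [h2, div_le_iff₀ (by positivity), mul_one_div, le_div_iff₀ (by positivity)]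
    have h3 : (2 : ℝ) ^ s * t ^ 4 ≤ 1 / t * t ^ 4 := mul_le_mul_of_nonneg_right h1 (by positivity)
    have h4 : 1 / t * t ^ 4 = t ^ 3 := by
      field_simp
    have h5 : t ^ 3 ≤ t := by
      have : t ^ 3 = t * t ^ 2 := by ring
      rw [this]
      have h6 : t ^ 2 ≤ 1 := by nlinarith
      nlinarith
    linarith
  have e3 : (2 * (((s + 2 * (3 * Δ)) / (2 * g) : ℕ) : ℝ) + 2) / (2 : ℝ) ^ g ≤
      ((4 * D + 6 * Δ) / g + 2) * t := by
    have h1 : (((s + 2 * (3 * Δ)) / (2 * g) : ℕ) : ℝ) ≤ (4 * D + 6 * Δ) / (2 * g) := by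
      refine (Nat.cast_div_le (α := ℝ)).trans (le_of_eq ?_)
      rw [hs]
      push_cast
      ring
    rw [hinv, div_div_eq_mul_div, div_one]
    refine mul_le_mul_of_nonneg_right ?_ ht0.le
    have h2 : (4 * (D : ℝ) + 6 * Δ) / g = 2 * ((4 * D + 6 * Δ) / (2 * g)) := by
      field_simp
    rw [h2]
    linarith
  have e4 : 5 + ((4 * (D : ℝ) + 6 * Δ) / g) ≤ n / g := by
    rw [← sub_nonneg]
    have h1 : (n : ℝ) / g - (5 + ((4 * (D : ℝ) + 6 * Δ) / g)) =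
        (n - (5 * g + (4 * D + 6 * Δ))) / g := by
      field_simp
    rw [h1]
    apply div_nonneg _ (by linarith)
    have h2 : ((4096 * D * g : ℕ) : ℝ) ≤ n := by exact_mod_cast hgn
    have h3 : ((512 * D * Δ : ℕ) : ℝ) ≤ n := by exact_mod_cast hΔ
    have h4 : ((4 * D : ℕ) : ℝ) ≤ g := by exact_mod_cast hgD
    push_cast at h2 h3 h4
    have h5 : (0 : ℝ) ≤ Δ := Nat.cast_nonneg _
    have h6 : (512 : ℝ) * Δ ≤ 512 * D * Δ := by nlinarith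
    have h7 : (4096 : ℝ) * g ≤ 4096 * D * g := by nlinarith
    linarith
  obtain ⟨ε, hε⟩ : ∃ ε : ℝ, ε = (2 : ℝ) ^ s / ((2 : ℝ) ^ (2 * g)) ^ 2 := ⟨_, rfl⟩
  rw [← hε] at e2 ⊢
  rw [e1]
  have hε0 : 0 ≤ ε := by rw [hε]; positivity
  have e5 : (1 + ε) * t ≤ 2 * t := by nlinarith
  have e6 : (5 + (4 * (D : ℝ) + 6 * Δ) / g) * t ≤ n / g * t :=
    mul_le_mul_of_nonneg_right e4 ht0.le
  rw [← ht]
  linarith

end Pool.Agent.L0h58.HN
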