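import Pool.Agent.L0h58.HN.Key

/-!
# Few inputs lie in thin classes
-/

set_option autoImplicit false

namespace Pool.Agent.L0h58.HN

open Finset Pool.Agent.L0h32.LT

variable {n : ℕ} {V : Type} (P : Mach n V) (ℓ r : ℕ) (v₀ : V) {σ : ℕ} (S : Fin σ → Fin n)
  (Fl : (Fin σ → Finset (Fin r)) → Fin r → ℕ) (Z : (Fin σ → Finset (Fin r)) → Finset (Fin n))
  (j : (Fin σ → Finset (Fin r)) → ℕ)

/-- The exceptional variables. -/
def Exx (x : Inp n) : Finset (Fin n) :=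
  Ex P ℓ (bd P ℓ v₀ x) (Fl (rcd P ℓ r v₀ S x)) (Z (rcd P ℓ r v₀ S x)) (j (rcd P ℓ r v₀ S x)) x

open Classical in
/-- The inputs with few exceptional variables in classes that are thin in the direction `a`. -/
noncomputable def Thn (e Δ a : ℕ) : Finset (Inp n) :=
  univ.filter fun x => (Exx P ℓ r v₀ S Fl Z j x).card ≤ e ∧
    ((univ.filter fun y => key P ℓ r v₀ S Fl Z y = key P ℓ r v₀ S Fl Z x).image
      (rst (La P ℓ r v₀ S Fl Z a x))).card * 2 ^ (3 * Δ) ≤ 2 ^ (La P ℓ r v₀ S Fl Z a x).card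

theorem thin [Finite V] (e Δ a b : ℕ) (hab : (a = 0 ∧ b = 1) ∨ (a = 1 ∧ b = 0)) :
    (Thn P ℓ r v₀ S Fl Z j e Δ a).card * 2 ^ (3 * Δ) ≤
      Nat.card V ^ (r + 1) * 2 ^ (r * σ) * ((Idx n e).card * 2 ^ n) := by
  classical
  have : Fintype V := Fintype.ofFinite V
  set T := Thn P ℓ r v₀ S Fl Z j e Δ a with hT
  have hpart : T.card = ∑ p : (Fin (r + 1) → V) × (Fin σ → Finset (Fin r)),
      (T.filter fun x => (stl P ℓ r v₀ x, rcd P ℓ r v₀ S x) = p).card :=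
    card_eq_sum_card_fiberwise fun x _ => mem_coe.2 (mem_univ _)
  rw [hpart, sum_mul]
  have hcard : Fintype.card ((Fin (r + 1) → V) × (Fin σ → Finset (Fin r))) =
      Nat.card V ^ (r + 1) * 2 ^ (r * σ) := by
    rw [Fintype.card_prod, Fintype.card_fun, Fintype.card_fun, Fintype.card_fin,
      Fintype.card_finset, Fintype.card_fin, Fintype.card_fin, Nat.card_eq_fintype_card, pow_mul]
  rw [← hcard, ← card_univ, ← smul_eq_mul (a := (univ : Finset
    ((Fin (r + 1) → V) × (Fin σ → Finset (Fin r)))).card), ← sum_const]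
  refine sum_le_sum fun p _ => ?_
  obtain ⟨bs, c⟩ := p
  -- the members of the label
  obtain ⟨S', hS'⟩ : ∃ S' : Finset (Inp n), S' = univ.filter fun x =>
      (stl P ℓ r v₀ x, rcd P ℓ r v₀ S x) = (bs, c) ∧
        (Ex P ℓ (ext bs) (Fl c) (Z c) (j c) x).card ≤ e := ⟨_, rfl⟩
  have hS1 : ∀ x ∈ S', stl P ℓ r v₀ x = bs ∧ rcd P ℓ r v₀ S x = c := by
    intro x hx
    rw [hS'] at hx
    exact Prod.ext_iff.1 (mem_filter.1 hx).2.1
  have hEx : ∀ x, stl P ℓ r v₀ x = bs → rcd P ℓ r v₀ S x = c →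
      Exx P ℓ r v₀ S Fl Z j x = Ex P ℓ (ext bs) (Fl c) (Z c) (j c) x := by
    intro x h1 h2
    unfold Exx Ex
    rw [tt_ext h1, h2]
  have hmain := half_count (P := P) (ℓ := ℓ) (β := ext bs) (F := Fl c) (Z := Z c) (j := j c)
    (K := Δ) (s := 0) (e := e) hab S'
    (T.filter fun x => (stl P ℓ r v₀ x, rcd P ℓ r v₀ S x) = (bs, c)) ?_ ?_ ?_
  · exact hmain
  · intro x hx
    obtain ⟨h1, h2⟩ := mem_filter.1 hx
    rw [hT] at h1
    obtain ⟨h3, h4⟩ := Prod.ext_iff.1 h2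
    rw [hS']
    refine mem_filter.2 ⟨mem_univ _, h2, ?_⟩
    rw [← hEx x h3 h4]
    exact (mem_filter.1 h1).2.1
  · intro x hx
    rw [hS'] at hx
    exact (mem_filter.1 hx).2.2
  · intro x hx
    obtain ⟨h1, h2⟩ := mem_filter.1 hx
    rw [hT] at h1
    obtain ⟨h3, h4⟩ := Prod.ext_iff.1 h2
    dsimp only at h3 h4
    have h5 := (mem_filter.1 h1).2.2
    rw [La_ext h3 h4] at h5
    rw [Nat.add_zero]
    refine (Nat.mul_le_mul_right _ (card_le_card (image_subset_image ?_))).trans h5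
    intro y hy
    obtain ⟨g1, g2, g3, g4⟩ := mem_filter.1 hy
    obtain ⟨g5, g6⟩ := hS1 y g1
    refine mem_filter.2 ⟨mem_univ _, (key_iff P ℓ r v₀ S Fl Z y x).2
      ⟨g5.trans h3.symm, g6.trans h4.symm, ?_, ?_, ?_⟩⟩
    · rw [La_ext g5 g6, La_ext h3 h4]
      rcases hab with ⟨rfl, rfl⟩ | ⟨rfl, rfl⟩
      · exact g2
      · exact g3
    · rw [La_ext g5 g6, La_ext h3 h4]
      rcases hab with ⟨rfl, rfl⟩ | ⟨rfl, rfl⟩
      · exact g3
      · exact g2
    · rw [La_ext g5 g6, La_ext g5 g6]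
      rcases hab with ⟨rfl, rfl⟩ | ⟨rfl, rfl⟩
      · intro i hi hi'
        exact g4 i (by rw [← g2]; exact hi) (by rw [← g3]; exact hi')
      · intro i hi hi'
        exact g4 i (by rw [← g2]; exact hi') (by rw [← g3]; exact hi)

end Pool.Agent.L0h58.HN
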